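import Pool.Agent.H97.OC.Defs

/-!
# Theorem OC: the rows of the geometric part

`n = κ₂ X` is the number of the time scales, the depths `s` run in `[8 n, X - 8 n)`, `m` is the
label of the line (minus the logarithm of the typical size of the slope of the time path `S`).
-/

set_option autoImplicit false

namespace Pool.OC

open Finset Real
open Pool.Agent.H49.Ent Pool.Agent.H32.Dense Pool.STK Pool.KAF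

/-- The scale of a number: `2 ^ (-sc x) ≤ |x| < 2 ^ (1 - sc x)` for `x ≠ 0`. -/
noncomputable def sc (x : ℝ) : ℤ := -Int.log 2 |x|

namespace Dat

variable (d : Dat)

/-- The difference of the slopes at the times of a pair. -/
noncomputable def sg (w : d.Om × d.Om) : ℝ := d.S (d.T w.2) - d.S (d.T w.1)

/-- The difference of the times of a pair. -/
noncomputable def ta (w : d.Om × d.Om) : ℝ := d.th (d.T w.2) - d.th (d.T w.1)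

/-- The cells of stage A. -/
noncomputable def GA (m : d.Lam → ℤ) (s : ℕ) (l : d.Lam) : ℤ × ℤ × ℤ × ℤ :=
  (m l, d.om l, ⌊(2 : ℝ) ^ s * d.yR l⌋, ⌊(2 : ℝ) ^ ((s : ℤ) + m l) * d.beR l⌋)

/-- The cells of stage B, based at the time `t`, velocity at the scale `a`. -/
noncomputable def GB (m : d.Lam → ℤ) (s : ℕ) (t : d.Tau) (a : ℤ) (l : d.Lam) : ℤ × ℤ × ℤ × ℤ :=
  (m l, ⌊(2 : ℝ) ^ ((s : ℤ) - a) * d.omR l⌋, ⌊(2 : ℝ) ^ s * (d.yR l + d.th t * d.omR l)⌋,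
    ⌊(2 : ℝ) ^ ((s : ℤ) + m l) * (d.beR l - d.S t * d.omR l)⌋)

/-- The label of a pair in stage B: both times and the cell. -/
noncomputable def LB (m : d.Lam → ℤ) (s : ℕ) (w : d.Om × d.Om) :
    d.Tau × d.Tau × ℤ × ℤ × ℤ × ℤ :=
  (d.T w.1, d.T w.2, d.GB m s (d.T w.1) (sc (d.ta w)) (d.L w.1))

/-- A pair of samples of one line and a partner of the first one at the scale `i`. -/
noncomputable def Q3 (i : ℕ) : (d.Om × d.Om) × d.Om → ℝ :=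
  glue (d.Qp 0) d.P (fun w => (d.L w.1, d.Ti i w.1)) (fun ω => (d.L ω, d.Ti i ω))

/-- A pair of samples of one line and a partner of the second one at the scale `i`. -/
noncomputable def Q3' (i : ℕ) : (d.Om × d.Om) × d.Om → ℝ :=
  glue (d.Qp 0) d.P (fun w => (d.L w.2, d.Ti i w.2)) (fun ω => (d.L ω, d.Ti i ω))

/-- Number of the scales at which the slope is large, in the mean over the pairs of the line. -/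
noncomputable def fq (n : ℕ) (l : d.Lam) (a : ℝ) : ℝ :=
  ∑ i ∈ range n, Pr (cond (d.Qp i) (fun w => d.L w.1) l) {w | a * |d.ta w| < |d.sg w|}

end Dat

/-! ### intermediate properties -/

/-- Sizes: `h` is the length of the blocks of rows, `n` the number of scales. -/
structure Siz (d : Dat) (n h : ℕ) (m : d.Lam → ℤ) : Prop where
  h1 : 1 ≤ h
  hn : 64 * h ≤ n
  nX : 64 * n ≤ d.X
  m1 : ∀ l, -(4 * n : ℤ) ≤ m l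
  m2 : ∀ l, m l ≤ 2 * n

/-- RowA: the forms of pairs do not hit the heavy rows of the base, cells of stage A. -/
def RowA (d : Dat) (J : d.Om → Set ℕ) (m : d.Lam → ℤ) (n k k₁ : ℕ) (e : ℝ) : Prop :=
  ∀ i < 4 * n, ∀ (q : ℤ → d.Tau → d.Tau → ℤ) (W : Set (ℤ × d.Tau × d.Tau)),
    (∀ w v s, 0 < d.Qp i w → 0 < d.P v → (m (d.L w.1), d.T w.1, d.T w.2) ∈ W → 8 * n ≤ s →
      d.GA m s (d.L v) = d.GA m s (d.L w.1) →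
      |d.ZR (d.T w.1) (d.T w.2) (d.L w.1) - d.ZR (d.T w.1) (d.T w.2) (d.L v)| ≤
        (2 : ℝ) ^ ((k : ℤ) - (s + q (m (d.L w.1)) (d.T w.1) (d.T w.2)))) →
    ∑ s ∈ Finset.Ico (8 * n) (d.X - 8 * n), Ex (d.Qp i) (Set.indicator
      {w | (m (d.L w.1), d.T w.1, d.T w.2) ∈ W ∧
        0 ≤ (s : ℤ) + q (m (d.L w.1)) (d.T w.1) (d.T w.2) ∧
        ((s : ℤ) + q (m (d.L w.1)) (d.T w.1) (d.T w.2)).toNat ∈ J w.1}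
      (fun w => Pr (cond d.P (fun v => d.GA m s (d.L v)) (d.GA m s (d.L w.1)))
        {v | (2 : ℝ) ^ (-((s : ℤ) + q (m (d.L w.1)) (d.T w.1) (d.T w.2) + k₁)) ≤
          |d.ZR (d.T w.1) (d.T w.2) (d.L w.1) - d.ZR (d.T w.1) (d.T w.2) (d.L v)|})) ≤ e * d.X

/-- RowB: the same for a pair of samples as context, cells of stage B, base = first sample. -/
def RowB (d : Dat) (J : d.Om → Set ℕ) (m : d.Lam → ℤ) (n k k₁ : ℕ) (e : ℝ) : Prop :=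
  ∀ i < 4 * n, ∀ (q : ℤ → d.Tau → d.Tau → d.Tau → ℤ) (W : Set (ℤ × d.Tau × d.Tau × d.Tau)),
    (∀ w v s, 0 < d.Q3 i w → 0 < d.Qp 0 v →
      (m (d.L w.1.1), d.T w.1.1, d.T w.1.2, d.T w.2) ∈ W → 8 * n ≤ s →
      d.LB m s v = d.LB m s w.1 →
      |d.ZR (d.T w.1.1) (d.T w.2) (d.L w.1.1) - d.ZR (d.T w.1.1) (d.T w.2) (d.L v.1)| ≤
        (2 : ℝ) ^ ((k : ℤ) - (s + q (m (d.L w.1.1)) (d.T w.1.1) (d.T w.1.2) (d.T w.2)))) →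
    ∑ s ∈ Finset.Ico (8 * n) (d.X - 8 * n), Ex (d.Q3 i) (Set.indicator
      {w | (m (d.L w.1.1), d.T w.1.1, d.T w.1.2, d.T w.2) ∈ W ∧
        0 ≤ (s : ℤ) + q (m (d.L w.1.1)) (d.T w.1.1) (d.T w.1.2) (d.T w.2) ∧
        ((s : ℤ) + q (m (d.L w.1.1)) (d.T w.1.1) (d.T w.1.2) (d.T w.2)).toNat ∈ J w.1.1}
      (fun w => Pr (cond (d.Qp 0) (d.LB m s) (d.LB m s w.1))
        {v | (2 : ℝ) ^ (-((s : ℤ) + q (m (d.L w.1.1)) (d.T w.1.1) (d.T w.1.2) (d.T w.2) + k₁)) ≤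
          |d.ZR (d.T w.1.1) (d.T w.2) (d.L w.1.1) -
            d.ZR (d.T w.1.1) (d.T w.2) (d.L v.1)|})) ≤ e * d.X

/-- RowB': the same, base = second sample of the pair. -/
def RowB' (d : Dat) (J : d.Om → Set ℕ) (m : d.Lam → ℤ) (n k k₁ : ℕ) (e : ℝ) : Prop :=
  ∀ i < 4 * n, ∀ (q : ℤ → d.Tau → d.Tau → d.Tau → ℤ) (W : Set (ℤ × d.Tau × d.Tau × d.Tau)),
    (∀ w v s, 0 < d.Q3' i w → 0 < d.Qp 0 v →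
      (m (d.L w.1.1), d.T w.1.1, d.T w.1.2, d.T w.2) ∈ W → 8 * n ≤ s →
      d.LB m s v = d.LB m s w.1 →
      |d.ZR (d.T w.1.2) (d.T w.2) (d.L w.1.1) - d.ZR (d.T w.1.2) (d.T w.2) (d.L v.1)| ≤
        (2 : ℝ) ^ ((k : ℤ) - (s + q (m (d.L w.1.1)) (d.T w.1.1) (d.T w.1.2) (d.T w.2)))) →
    ∑ s ∈ Finset.Ico (8 * n) (d.X - 8 * n), Ex (d.Q3' i) (Set.indicator
      {w | (m (d.L w.1.1), d.T w.1.1, d.T w.1.2, d.T w.2) ∈ W ∧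
        0 ≤ (s : ℤ) + q (m (d.L w.1.1)) (d.T w.1.1) (d.T w.1.2) (d.T w.2) ∧
        ((s : ℤ) + q (m (d.L w.1.1)) (d.T w.1.1) (d.T w.1.2) (d.T w.2)).toNat ∈ J w.1.2}
      (fun w => Pr (cond (d.Qp 0) (d.LB m s) (d.LB m s w.1))
        {v | (2 : ℝ) ^ (-((s : ℤ) + q (m (d.L w.1.1)) (d.T w.1.1) (d.T w.1.2) (d.T w.2) + k₁)) ≤
          |d.ZR (d.T w.1.2) (d.T w.2) (d.L w.1.1) -
            d.ZR (d.T w.1.2) (d.T w.2) (d.L v.1)|})) ≤ e * d.X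

/-- Macroscopic time distances. -/
def TA (d : Dat) (n : ℕ) (ε : ℝ) : Prop :=
  ∀ i i' : ℕ, i + n / 4 ≤ i' → i' ≤ d.X → Pr (d.Qp i) {w | |d.ta w| < (2 : ℝ) ^ (-(i' : ℤ))} ≤ ε

/-- The time distances at most scales. -/
def TB (d : Dat) (n k' : ℕ) (ε : ℝ) : Prop :=
  ∀ a b : ℕ, a + n / 8 ≤ b → b ≤ d.X →
    ∑ i ∈ Finset.Ico a b, Pr (d.Qp i) {w | |d.ta w| < (2 : ℝ) ^ (-((i : ℤ) + k'))} ≤
      ε * ((b : ℝ) - a)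

/-- The tangential position is spread in the cells of stage A. -/
def SPR (d : Dat) (m : d.Lam → ℤ) (n a : ℕ) (ε : ℝ) : Prop :=
  ∑ s ∈ Finset.Ico (8 * n) (d.X - 8 * n), Pr (dbl d.P (fun v => d.GA m s (d.L v)))
    {w | |d.yR (d.L w.1) - d.yR (d.L w.2)| < (2 : ℝ) ^ (-((s : ℤ) + a))} ≤ ε * d.X

/-- No large slopes, at every scale. -/
def NLC (d : Dat) (m : d.Lam → ℤ) (n a : ℕ) (ε : ℝ) : Prop :=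
  ∀ i < 2 * n, Pr (d.Qp i) {w | (2 : ℝ) ^ (-(4 * n : ℤ)) ≤ |d.ta w| ∧
    (2 : ℝ) ^ ((a : ℤ) + 4 - m (d.L w.1)) * |d.ta w| < |d.sg w|} ≤ ε

/-- The slopes at all scales agree with `Λ`. -/
def AGR (d : Dat) (m : d.Lam → ℤ) (n k₅ : ℕ) (Λ : d.Om → ℝ) (ε : ℝ) : Prop :=
  ∀ i < n, Pr (d.Qp i) {w | (2 : ℝ) ^ (-(m (d.L w.1) + k₅)) * |d.ta w| <
    |d.sg w - Λ w.1 * d.ta w|} ≤ ε

/-! ### the rows -/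

/-- TIM: time distances from (H1). -/
def TIMStmt : Prop :=
  ∀ ε : ℝ, 0 < ε → ∃ k' : ℕ, ∀ κ₂ : ℝ, 0 < κ₂ → ∃ (ι : ℝ) (X₀ : ℕ), 0 < ι ∧
    ∀ (d : Dat) (A : ℕ), d.OK A → X₀ ≤ d.X → d.H1 ι →
      TA d ⌊κ₂ * d.X⌋₊ ε ∧ TB d ⌊κ₂ * d.X⌋₊ k' ε

/-- QNT: the label. -/
def QNTStmt : Prop :=
  ∀ (d : Dat) (A n : ℕ) (d₁ ε : ℝ), d.OK A → 1 ≤ n → 0 < d₁ →
    (∀ i < n, Pr (d.Qp i) {w | |d.ta w| < (2 : ℝ) ^ (-(4 * n : ℤ))} ≤ ε) →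
    ∃ m : d.Lam → ℤ, (∀ l, -(4 * n : ℤ) ≤ m l ∧ m l ≤ 2 * n) ∧
      Pr d.P {ω | d₁ * n < d.fq n (d.L ω) ((2 : ℝ) ^ (1 - m (d.L ω)))} ≤ ε / d₁ ∧
      ∀ ω, 0 < d.P ω → m (d.L ω) < 2 * n →
        d₁ * n < d.fq n (d.L ω) ((2 : ℝ) ^ (-m (d.L ω)))

/-- RWA: RowA from RowOK. -/
def RWAStmt : Prop :=
  ∀ (d : Dat) (A : ℕ) (J : d.Om → Set ℕ) (m : d.Lam → ℤ) (n k k₁ : ℕ) (e δ ι : ℝ), d.OK A →
    d.H1 ι → 2 * ι ≤ δ → H d.P (fun ω => m (d.L ω)) ≤ δ * d.X → RowOK d J k k₁ e δ →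
    RowA d J m n k k₁ e

/-- RWB: RowB and RowB' from RowOK. -/
def RWBStmt : Prop :=
  ∀ (d : Dat) (A : ℕ) (J : d.Om → Set ℕ) (m : d.Lam → ℤ) (n k k₁ : ℕ) (e δ ι : ℝ), d.OK A →
    d.H1 ι → 3 * ι ≤ δ → H d.P (fun ω => m (d.L ω)) ≤ δ * d.X → RowOK d J k k₁ e δ →
    RowB d J m n k k₁ e ∧ RowB' d J m n k k₁ e

/-- SPRA: section 3.1 (telescope). -/
def SPRAStmt : Prop :=
  ∀ u ε₄ : ℝ, 0 < u → u ≤ 1 → 0 < ε₄ → ∃ (a : ℕ) (κ₂ ε₈ e₀ : ℝ), 1 ≤ a ∧ 0 < κ₂ ∧ 0 < ε₈ ∧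
    0 < e₀ ∧ ∀ A k' : ℕ, ∃ k₁₀ n₀ : ℕ, ∀ (d : Dat) (J : d.Om → Set ℕ) (m : d.Lam → ℤ)
      (n h k k₁ : ℕ) (e : ℝ), d.OK A → Siz d n h m → n₀ ≤ n → (n : ℝ) ≤ κ₂ * d.X → 2 ≤ k →
      k₁₀ ≤ k₁ → e ≤ e₀ → RowA d J m n k k₁ e → J1 d J h u ε₈ →
      Pr d.P {ω | u / 32 * n < d.fq n (d.L ω) ((2 : ℝ) ^ (1 - m (d.L ω)))} ≤ ε₈ →
      TB d n k' ε₈ → d.H3 ε₈ → SPR d m n a ε₄

/-- NLC: section 3.2. -/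
def NLCStmt : Prop :=
  ∀ (d : Dat) (A : ℕ) (J : d.Om → Set ℕ) (m : d.Lam → ℤ) (n h k k₁ a : ℕ) (e u π₁ ε₄ : ℝ),
    d.OK A → Siz d n h m → 0 < u → 2 ≤ k → a + 4 ≤ k₁ → RowA d J m n k k₁ e → J1 d J h u π₁ →
    SPR d m n a ε₄ → NLC d m n a (π₁ + 4 / u * (e + ε₄))

/-- NMX: the label is not maximal. -/
def NMXStmt : Prop :=
  ∀ (d : Dat) (A n a : ℕ) (m : d.Lam → ℤ) (x₀ ε₁ ε₂ ε₃ : ℝ), d.OK A → 1 ≤ n →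
    x₀ * d.X < 2 * n - a - 4 → d.H6 x₀ ε₁ → NLC d m n a ε₂ →
    Pr (d.Qp 0) {w | |d.ta w| < (2 : ℝ) ^ (-(4 * n : ℤ))} ≤ ε₃ →
    Pr d.P {ω | m (d.L ω) = 2 * n} ≤ ε₁ + ε₂ + ε₃

/-- ALS: sections 3.3, 3.4. -/
def ALSStmt : Prop :=
  ∀ u ε₉ : ℝ, 0 < u → u ≤ 1 → 0 < ε₉ → ∃ ε₈ : ℝ, 0 < ε₈ ∧ ∀ A a k' k₅ : ℕ, ∃ (k₁₀ n₀ : ℕ)
    (e₀ : ℝ), 0 < e₀ ∧ ∀ (d : Dat) (J : d.Om → Set ℕ) (m : d.Lam → ℤ) (n h k k₁ : ℕ) (e : ℝ),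
      d.OK A → Siz d n h m → n₀ ≤ n → a + 8 ≤ k → k₁₀ ≤ k₁ → e ≤ e₀ → RowA d J m n k k₁ e →
      J1 d J h u ε₈ → SPR d m n a ε₈ → NLC d m n a ε₈ → TA d n ε₈ → TB d n k' ε₈ →
      ∃ Λ : d.Om → ℝ, AGR d m n k₅ Λ ε₉

/-- LAM: the common slope is not small. -/
def LAMStmt : Prop :=
  ∀ u ε₁₀ : ℝ, 0 < u → 0 < ε₁₀ → ∃ ε₉ : ℝ, 0 < ε₉ ∧ ∀ (d : Dat) (A n k₅ : ℕ)
    (m : d.Lam → ℤ) (Λ : d.Om → ℝ), d.OK A → 1 ≤ n → 4 ≤ k₅ → AGR d m n k₅ Λ ε₉ →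
    Pr d.P {ω | m (d.L ω) = 2 * n} ≤ ε₉ → (∀ l, m l ≤ 2 * n) →
    Pr (d.Qp 0) {w | d.ta w = 0} ≤ ε₉ →
    (∀ ω, 0 < d.P ω → m (d.L ω) < 2 * n →
      u / 32 * n < d.fq n (d.L ω) ((2 : ℝ) ^ (-m (d.L ω)))) →
    Pr d.P {ω | |Λ ω| < (2 : ℝ) ^ (-m (d.L ω) - 2)} ≤ ε₁₀

/-- The tangential velocity is active in the cells of stage B. -/
def ACTB (d : Dat) (m : d.Lam → ℤ) (n b : ℕ) (c : ℝ) : Prop :=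
  c * d.X ≤ ∑ s ∈ Finset.Ico (8 * n) (d.X - 8 * n), Pr (dbl (d.Qp 0) (d.LB m s))
    {w | (2 : ℝ) ^ (-((s : ℤ) - sc (d.ta w.1) + b)) ≤ |d.omR (d.L w.1.1) - d.omR (d.L w.2.1)|}

/-- SPRB: telescope of stage B. -/
def SPRBStmt : Prop :=
  ∀ u ca : ℝ, 0 < u → u ≤ 1 → 0 < ca → ∃ ε₈ κ₂ : ℝ, 0 < ε₈ ∧ 0 < κ₂ ∧ ∀ A a k' : ℕ,
    ∃ (b k₁₀ n₀ : ℕ) (e₀ : ℝ), 0 < e₀ ∧ ∀ (d : Dat) (J : d.Om → Set ℕ) (m : d.Lam → ℤ)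
      (n h k k₁ : ℕ) (e : ℝ), d.OK A → Siz d n h m → n₀ ≤ n → (n : ℝ) ≤ κ₂ * d.X → a + 8 ≤ k →
      k₁₀ ≤ k₁ → e ≤ e₀ → RowB d J m n k k₁ e → J1 d J h u ε₈ → NLC d m n a ε₈ → TA d n ε₈ →
      TB d n k' ε₈ → d.H1 ε₈ → d.H3 ε₈ → d.H4 ca → ACTB d m n b (ca / 8)

/-- FIN: the contradiction. -/
def FINStmt : Prop :=
  ∀ u ca : ℝ, 0 < u → u ≤ 1 → 0 < ca → ∃ ε₈ : ℝ, 0 < ε₈ ∧ ∀ A a b k' : ℕ,
    ∃ (k₅ k₁₀ n₀ : ℕ) (e₀ : ℝ), 4 ≤ k₅ ∧ 0 < e₀ ∧ ∀ (d : Dat) (J : d.Om → Set ℕ)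
      (m : d.Lam → ℤ) (n h k k₁ : ℕ) (e : ℝ) (Λ : d.Om → ℝ), d.OK A → Siz d n h m → n₀ ≤ n →
      a + 12 ≤ k → k₁₀ ≤ k₁ → e ≤ e₀ → RowB d J m n k k₁ e → RowB' d J m n k k₁ e →
      J1 d J h u ε₈ → NLC d m n a ε₈ → TA d n ε₈ → TB d n k' ε₈ → AGR d m n k₅ Λ ε₈ →
      Pr d.P {ω | |Λ ω| < (2 : ℝ) ^ (-m (d.L ω) - 2)} ≤ ε₈ → ACTB d m n b (ca / 8) → False

end Pool.OC
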