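import Pool.Agent.H86.OC.ROKx
import Pool.Agent.H6.OC.J1R

/-!
# Theorem OC: the heavy rows exist
-/

set_option autoImplicit false

namespace Pool.OC

open Finset Real
open Pool.Agent.H49.Ent Pool.Agent.H32.Dense Pool.STK Pool.KAF

theorem row_stmt_thm : ROWStmt := by
  intro A c hc
  set c' : ℝ := min c 1 with hc'
  have hc0 : 0 < c' := lt_min hc one_pos
  have hcc : c' ≤ c := min_le_left _ _
  have hc1 : c' ≤ 1 := min_le_right _ _
  refine ⟨c' / 16, by positivity, by linarith, ?_⟩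
  intro k k₁ e he
  obtain ⟨D₀, hR⟩ := RS.rok_OC k k₁ (c' / 16) e (by positivity) he
  have hl2 : 0 < Real.log 2 := Real.log_pos (by norm_num)
  obtain ⟨K, hK⟩ := exists_nat_ge (8 * (max D₀ 0 + Real.log 2) / (c' * Real.log 2))
  rw [div_le_iff₀ (by positivity)] at hK
  obtain ⟨δ, X₁, hδ, hR⟩ := hR (max D₀ 0) (le_max_left _ _) K
  refine ⟨δ, hδ, fun κ π₁ hκ _ hπ => ?_⟩
  obtain ⟨π₀, X₂, hπ0, hJ⟩ := j1_oc c' (max D₀ 0) K k hc0 (le_max_right _ _) (by linarith) κ π₁ hκ hπ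
  refine ⟨π₀, max X₁ X₂, hπ0, fun d hd hX h2 h5 => ?_⟩
  refine ⟨RS.Jw d.P d.N d.T d.X k K (max D₀ 0) (c' / 16), ?_,
    hR A d hd ((le_max_left _ _).trans hX) h2⟩
  refine hJ d hd.law ((le_max_right _ _).trans hX) ?_
  intro j hj E hE
  refine (h5 j hj E hE).trans ?_
  refine mul_le_mul_of_nonneg_right (mul_le_mul_of_nonneg_right (by linarith) (by positivity)) hl2.le

end Pool.OC
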