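import Pool.Agent.H97.OC.Geo
import Pool.Agent.H97.OC.Row
import Pool.Agent.H14.OC.Tim
import Pool.Agent.H14.OC.Qnt
import Pool.Agent.H43.OC.RWA
import Pool.Agent.H26.OC.RWB
import Pool.Agent.H70.OC.Spra
import Pool.Agent.H29.OC.NlcS
import Pool.Agent.H29.OC.Nmx
import Pool.Agent.H20.OC.ALSc
import Pool.Agent.H62.OC.Lam
import Pool.Agent.H55.OC.SPRB
import Pool.Agent.H64.OC.FIN

/-!
# Theorem OC
-/

set_option autoImplicit false

namespace Pool.OC

theorem geo_thm : GEOStmt :=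
  geo_of tim_thm qnt_thm rwa_thm rwb spra_thm nlc_thm nmx_thm als_thm lam_thm sprb_thm fin_thm

/-- **Theorem OC.** -/
theorem oc_thm : OCStmt := oc_of row_stmt_thm geo_thm

end Pool.OC
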