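import Pool.Agent.H97.OC.OCD
import Pool.Agent.H97.OC.Thm

/-!
# Theorem OC in density form, without hypotheses
-/

set_option autoImplicit false

namespace Pool.K2S

/-- **Theorem OC in density form.** -/
theorem ocd : OCDStmt := ocd_thm Pool.OC.oc_thm

end Pool.K2S
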