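import Pool.Agent.H54.KVA.Defs2
import Pool.Agent.H56.KAF.Defs

/-!
# Theorem OC: definitions

One context. `Om` is the finite space of the samples (a line and a time on it), `L` the line, `T`
the exact time, `y`, `om`, `be` the tangential position, the tangential velocity and the normal
velocity of the line in units `2 ^ (-X)`, `N` the normal position of the sample in the frame of
slope `S (T ω)`, in the same units. The form `ZR t₁ t₀` is the difference of the normal positions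
at two times as a function of the line.
-/

set_option autoImplicit false

namespace Pool.OC

open Finset Real
open Pool.Agent.H49.Ent Pool.Agent.H32.Dense Pool.STK Pool.KAF

/-- The data of theorem OC. -/
structure Dat where
  Om : Type
  Lam : Type
  Tau : Type
  [fin : Fintype Om]
  P : Om → ℝ
  L : Om → Lam
  T : Om → Tau
  y : Lam → ℤ
  om : Lam → ℤ
  be : Lam → ℤ
  N : Om → ℤ
  th : Tau → ℝ
  S : Tau → ℝ
  X : ℕ

attribute [instance] Dat.fin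

namespace Dat

variable (d : Dat)

/-- The tangential position at time zero. -/
noncomputable def yR (l : d.Lam) : ℝ := d.y l / 2 ^ d.X

/-- The tangential velocity. -/
noncomputable def omR (l : d.Lam) : ℝ := d.om l / 2 ^ d.X

/-- The normal velocity. -/
noncomputable def beR (l : d.Lam) : ℝ := d.be l / 2 ^ d.X

/-- The digits of the line. -/
def V (l : d.Lam) : ℤ × ℤ × ℤ := (d.y l, d.om l, d.be l)

/-- The difference of the normal positions at the times `t₀` and `t₁`. -/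
noncomputable def ZR (t₁ t₀ : d.Tau) (l : d.Lam) : ℝ :=
  (d.th t₀ - d.th t₁) * d.beR l - (d.S t₀ - d.S t₁) * d.yR l -
    (d.S t₀ * d.th t₀ - d.S t₁ * d.th t₁) * d.omR l

/-- The row `r` of the normal position. -/
def row (r : ℕ) (ω : d.Om) : ℤ := d.N ω / 2 ^ (d.X - r)

/-- The first `i` digits of the time. -/
noncomputable def Ti (i : ℕ) (ω : d.Om) : ℤ := ⌊(2 : ℝ) ^ i * d.th (d.T ω)⌋

/-- Pairs of samples on one line at the scale `i`. -/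
noncomputable def Qp (i : ℕ) : d.Om × d.Om → ℝ := dbl d.P (fun ω => (d.L ω, d.Ti i ω))

/-- The basic assumptions. -/
structure OK (A : ℕ) : Prop where
  law : IsLaw d.P
  hy : ∀ ω, 0 < d.P ω → |d.yR (d.L ω)| ≤ 2 ^ A
  hom : ∀ ω, 0 < d.P ω → |d.omR (d.L ω)| ≤ 2 ^ A
  hbe : ∀ ω, 0 < d.P ω → |d.beR (d.L ω)| ≤ 2 ^ A
  hN : Det d.P (fun ω => (d.L ω, d.T ω)) d.N
  hth : ∀ t, 0 ≤ d.th t ∧ d.th t < 1
  hS : ∀ t, |d.S t| ≤ 1
  hZ : ∀ ω ω', 0 < d.P ω → 0 < d.P ω' → d.L ω = d.L ω' →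
    |((d.N ω' : ℝ) - d.N ω) - 2 ^ d.X * d.ZR (d.T ω) (d.T ω') (d.L ω)| ≤ 8

/-- (H1) the time is nearly independent of the line and its digits are full. -/
def H1 (ι : ℝ) : Prop :=
  Pool.KVA.MI d.P d.T d.L (fun _ => ()) ≤ ι * d.X ∧
  (1 - ι) * d.X * Real.log 2 ≤ CH d.P (d.Ti d.X) d.L

/-- (H2) the normal position is nearly independent of the line. -/
def H2 (ι : ℝ) : Prop := Pool.KVA.MI d.P d.N (fun ω => d.V (d.L ω)) d.T ≤ ι * d.X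

/-- (H3) the tangential position is full given the tangential velocity. -/
def H3 (ι : ℝ) : Prop :=
  (1 - ι) * d.X * Real.log 2 ≤ CH d.P (fun ω => d.y (d.L ω)) (fun ω => d.om (d.L ω))

/-- (H4) the tangential velocity is active. -/
def H4 (ca : ℝ) : Prop := ca * d.X * Real.log 2 ≤ H d.P (fun ω => d.om (d.L ω))

/-- (H5) the blocks of rows of the normal position are not full on any large event. -/
def H5 (c κ π₀ : ℝ) : Prop :=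
  ∀ j : ℕ, (j + 1) * ⌊κ * d.X⌋₊ ≤ d.X → ∀ E : Set d.Om, π₀ ≤ Pr d.P E →
    CH (cond d.P (fun ω => ω ∈ E) True) (d.row ((j + 1) * ⌊κ * d.X⌋₊))
      (fun ω => (d.row (j * ⌊κ * d.X⌋₊) ω, d.T ω)) ≤ (1 - c) * ⌊κ * d.X⌋₊ * Real.log 2

/-- (H6) the slope is not constant on a line at any visible precision. -/
def H6 (x₀ ε : ℝ) : Prop :=
  Pr (dbl d.P d.L) {w | |d.S (d.T w.1) - d.S (d.T w.2)| < (2 : ℝ) ^ (-(x₀ * d.X))} ≤ ε

end Dat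

/-- **Theorem OC.** -/
def OCStmt : Prop :=
  ∀ (A : ℕ) (c ca : ℝ), 0 < c → 0 < ca → ∃ (x₀ κ π₀ ι ε : ℝ) (X₀ : ℕ), 0 < x₀ ∧ 0 < κ ∧
    κ ≤ 1 ∧ 0 < π₀ ∧ 0 < ι ∧ 0 < ε ∧ ∀ d : Dat, d.OK A → X₀ ≤ d.X → d.H1 ι → d.H2 ι → d.H3 ι →
      d.H4 ca → d.H5 c κ π₀ → d.H6 x₀ ε → False

/-! ### the heavy rows -/

/-- (J1) For most samples all blocks of rows contain many heavy rows. -/
def J1 (d : Dat) (J : d.Om → Set ℕ) (h : ℕ) (u π₁ : ℝ) : Prop :=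
  Pr d.P {ω | ∃ j : ℕ, (j + 2) * h ≤ d.X ∧
    (Set.ncard {r | r ∈ J ω ∧ j * h ≤ r ∧ r < (j + 1) * h} : ℝ) < u * h} ≤ π₁

/-- (J2) The heavy rows of the base sample are not hit by the forms. `Q` is any law of tuples,
`w₁` the base sample, `w₀` the partner, `x` the times, `x₀` the context, `m` a label of the line,
`G` the cells, `dg` their digits, `q` the level, `W` an event. -/
def RowOK (d : Dat) (J : d.Om → Set ℕ) (k k₁ : ℕ) (e δ : ℝ) : Prop :=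
  ∀ (Ω ξ₀ ξ μ : Type) (γ : ℕ → Type) [Fintype Ω] (Q : Ω → ℝ) (w₁ w₀ : Ω → d.Om) (x₀ : Ω → ξ₀)
    (x : Ω → ξ) (m : d.Lam → μ) (G : ∀ s, Ω → γ s) (dg : ℕ → Ω → Bool × Bool × Bool)
    (q : Ω → ℤ) (W : Set Ω) (a b : ℕ), IsLaw Q →
    (∀ ω, law Q w₁ ω = d.P ω) → (∀ ω, law Q w₀ ω = d.P ω) →
    (∀ v, 0 < Q v → d.L (w₀ v) = d.L (w₁ v)) →
    Det Q x (fun v => (x₀ v, d.T (w₁ v), d.T (w₀ v))) →
    Pool.KVA.MI Q (fun v => d.L (w₁ v)) x (fun _ => ()) ≤ δ * d.X →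
    H Q (fun v => m (d.L (w₁ v))) ≤ δ * d.X →
    (∀ s, a ≤ s → Det Q (fun v => (x₀ v, m (d.L (w₁ v)), d.V (d.L (w₁ v)))) (G s)) →
    (∀ s, a ≤ s → Det Q (fun v => (G s v, dg s v)) (G (s + 1))) →
    (∀ s, a ≤ s → Det Q (G (s + 1)) (fun v => (G s v, dg s v))) →
    Det Q (fun v => (x v, m (d.L (w₁ v)))) q →
    Det Q (fun v => (x v, m (d.L (w₁ v)))) (fun v => v ∈ W) →
    (∀ s v v', a ≤ s → 0 < Q v → 0 < Q v' → v ∈ W → x₀ v = x₀ v' →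
      m (d.L (w₁ v)) = m (d.L (w₁ v')) → G s v = G s v' →
      |d.ZR (d.T (w₁ v)) (d.T (w₀ v)) (d.L (w₁ v)) -
        d.ZR (d.T (w₁ v)) (d.T (w₀ v)) (d.L (w₁ v'))| ≤ (2 : ℝ) ^ ((k : ℤ) - (s + q v))) →
    b ≤ d.X →
    ∑ s ∈ Finset.Ico a b, Pr (dbl Q (fun v => (x₀ v, m (d.L (w₁ v)), G s v))) {z | z.1 ∈ W ∧
      0 ≤ (s : ℤ) + q z.1 ∧ ((s : ℤ) + q z.1).toNat ∈ J (w₁ z.1) ∧
      (2 : ℝ) ^ (-((s : ℤ) + q z.1 + k₁)) ≤
        |d.ZR (d.T (w₁ z.1)) (d.T (w₀ z.1)) (d.L (w₁ z.1)) -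
          d.ZR (d.T (w₁ z.1)) (d.T (w₀ z.1)) (d.L (w₁ z.2))|} ≤ e * d.X

/-- ROW: the heavy rows exist. -/
def ROWStmt : Prop :=
  ∀ (A : ℕ) (c : ℝ), 0 < c → ∃ u : ℝ, 0 < u ∧ u ≤ 1 ∧ ∀ (k k₁ : ℕ) (e : ℝ), 0 < e → ∃ δ : ℝ,
    0 < δ ∧ ∀ κ π₁ : ℝ, 0 < κ → κ ≤ 1 → 0 < π₁ → ∃ (π₀ : ℝ) (X₀ : ℕ), 0 < π₀ ∧ ∀ d : Dat,
      d.OK A → X₀ ≤ d.X → d.H2 δ → d.H5 c κ π₀ → ∃ J : d.Om → Set ℕ,
        J1 d J ⌊κ * d.X⌋₊ u π₁ ∧ RowOK d J k k₁ e δ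

/-- GEO: heavy rows which are not hit are impossible. -/
def GEOStmt : Prop :=
  ∀ (A : ℕ) (ca u : ℝ), 0 < ca → 0 < u → u ≤ 1 → ∃ (k k₁ : ℕ) (e κ π₁ x₀ ε : ℝ), 0 < e ∧
    0 < κ ∧ κ ≤ 1 ∧ 0 < π₁ ∧ 0 < x₀ ∧ 0 < ε ∧ ∀ δ : ℝ, 0 < δ → ∃ (ι : ℝ) (X₀ : ℕ), 0 < ι ∧
      ∀ d : Dat, d.OK A → X₀ ≤ d.X → d.H1 ι → d.H2 ι → d.H3 ι → d.H4 ca → d.H6 x₀ ε →
        ∀ J : d.Om → Set ℕ, J1 d J ⌊κ * d.X⌋₊ u π₁ → RowOK d J k k₁ e δ → False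

end Pool.OC
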