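import Pool.Agent.H97.OC.Sel

/-!
# Theorem OC in density form

Without a hypothesis on the rows: if the hypotheses of theorem OC hold for the contexts `b r`
(after `r` rows), all sub-blocks of the rows and all large events, then the rows of the normal
position are full. `d` is the unit of the rows.
-/

set_option autoImplicit false

namespace Pool.K2S

open Finset Real
open Pool.Agent.H49.Ent Pool.Agent.H32.Dense Pool.STK Pool.KA Pool.OC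

/-- The hypotheses of theorem OC on the position and on the frames, in the mean over the context
`b`, without the hypothesis on the rows. -/
structure OCHyp {Ω β Λ Θ : Type} [Fintype Ω] (p : Ω → ℝ) (b : Ω → β) (L : Ω → Λ) (T : Ω → Θ)
    (y om be th S nu : Ω → ℝ) (X : ℕ) (x₀ ι ca ε : ℝ) : Prop where
  h1 : Pool.KVA.MI p T L b ≤ ι * X
  h1' : (1 - ι) * X * Real.log 2 ≤ CH p (Uni.dg X th) (fun ω => (L ω, b ω))
  h2 : CH p (Uni.dg X nu) (fun ω => (b ω, T ω)) -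
    CH p (Uni.dg X nu) (fun ω => ((Uni.dg X y ω, (Uni.dg X om ω, Uni.dg X be ω)),
      (b ω, T ω))) ≤ ι * X
  h3 : (1 - ι) * X * Real.log 2 ≤ CH p (Uni.dg X y) (fun ω => (Uni.dg X om ω, b ω))
  h4 : ca * X * Real.log 2 ≤ CH p (Uni.dg X om) b
  h6 : Pool.KAF.Pr (dbl p (fun ω => (L ω, b ω)))
    {w | |S w.1 - S w.2| < (2 : ℝ) ^ (-(x₀ * X))} ≤ ε

/-- **(OCD)** Theorem OC in density form. -/
def OCDStmt : Prop :=
  ∀ (ε ca K : ℝ), 0 < ε → 0 < ca → 0 ≤ K → ∃ (x₀ η ϖ ι ε₁ : ℝ) (n₀ : ℕ), 0 < x₀ ∧ 0 < η ∧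
    0 < ϖ ∧ 0 < ι ∧ 0 < ε₁ ∧
    ∀ (Ω β Λ Θ : Type) [Fintype Ω] (p : Ω → ℝ) (b : ℕ → Ω → β) (L : Ω → Λ) (T : Ω → Θ)
      (y om be m0 S nu : ℕ → Ω → ℝ) (th : Ω → ℝ) (d X : ℕ), 1 ≤ d → n₀ * d ≤ X →
      (∀ r, d ∣ r → r ≤ X → OCData p (b r) L T (y r) (om r) (be r) (m0 r) th (S r) (nu r)) →
      (∀ r, d ∣ r → r ≤ X → Det p (fun ω => (b r ω, T ω)) (b 0)) →
      (∀ r, d ∣ r → r ≤ X → ∃ κ : Ω → ℝ, Det p (fun ω => (b r ω, T ω)) κ ∧
        ∀ ω, 0 < p ω → |2 ^ r * nu 0 ω - nu r ω - κ ω| * 2 ^ (X - r) ≤ K) →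
      (∀ r X' : ℕ, d ∣ r → d ∣ X' → η * X ≤ X' → r + X' ≤ X → ∀ A : Ω → Prop, ϖ ≤ Pe p A →
        OCHyp (Pool.Agent.H49.Ent.cond p A True) (b r) L T (y r) (om r) (be r) th (S r) (nu r)
          X' x₀ ι ca ε₁) →
      (1 - ε) * X * Real.log 2 ≤ CH p (Uni.dg X (nu 0)) (fun ω => (b 0 ω, T ω))

namespace Sel

variable {Ω S T γ β Λ Θ : Type} [Fintype Ω]

omit [Fintype Ω] in
theorem nst_dg (y : Ω → ℝ) : Nst (fun r => Uni.dg r y) := by
  intro r ω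
  unfold Uni.dg
  have h := Int.floor_div_natCast ((2 : ℝ) ^ (r + 1) * y ω) 2
  have e : (2 : ℝ) ^ (r + 1) * y ω / ((2 : ℕ) : ℝ) = 2 ^ r * y ω := by
    rw [pow_succ]
    push_cast
    ring
  rw [e] at h
  exact_mod_cast h

/-- An integer which is known up to `K` has entropy at most `log (2 K + 1)`. -/
theorem CH_near {q : Ω → ℝ} (hq : IsLaw q) (V : Ω → ℤ) (Z : Ω → T) (g : Ω → ℝ)
    (hg : Det q Z g) {K : ℝ} (hK : 0 ≤ K) (h : ∀ ω, 0 < q ω → |(V ω : ℝ) - g ω| ≤ K) :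
    CH q V Z ≤ Real.log (2 * K + 1) := by
  classical
  obtain ⟨F, hF⟩ : ∃ F : T → Finset ℤ, F = fun z =>
      if hz : ∃ ω, 0 < q ω ∧ Z ω = z then Finset.Icc ⌈g hz.choose - K⌉ ⌊g hz.choose + K⌋
      else {0} := ⟨_, rfl⟩
  have hFz : ∀ ω, 0 < q ω → F (Z ω) = Finset.Icc ⌈g ω - K⌉ ⌊g ω + K⌋ := by
    intro ω hω
    have hz : ∃ ω', 0 < q ω' ∧ Z ω' = Z ω := ⟨ω, hω, rfl⟩
    rw [hF]
    simp only
    rw [dif_pos hz]
    have h1 := hg _ _ hz.choose_spec.1 hω hz.choose_spec.2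
    rw [h1]
  have h1 := CH_le_card hq.nonneg hq.sum_one V Z F (fun ω hω => by
    rw [hFz ω hω, Finset.mem_Icc]
    have h2 := abs_le.1 (h ω hω)
    exact ⟨Int.ceil_le.2 (by linarith), Int.le_floor.2 (by linarith)⟩)
  refine h1.trans ?_
  have h3 : ∀ ω, q ω * Real.log ((F (Z ω)).card : ℝ) ≤ q ω * Real.log (2 * K + 1) := by
    intro ω
    rcases (hq.nonneg ω).eq_or_lt with h0 | h0
    · rw [← h0]
      simp
    refine mul_le_mul_of_nonneg_left ?_ h0.le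
    rw [hFz ω h0, Int.card_Icc]
    rcases Nat.eq_zero_or_pos (⌊g ω + K⌋ + 1 - ⌈g ω - K⌉).toNat with h4 | h4
    · rw [h4]
      simp only [Nat.cast_zero, Real.log_zero]
      exact Real.log_nonneg (by linarith)
    · refine Real.log_le_log (by exact_mod_cast h4) ?_
      have h5 : (((⌊g ω + K⌋ + 1 - ⌈g ω - K⌉).toNat : ℤ) : ℝ) =
          ((⌊g ω + K⌋ + 1 - ⌈g ω - K⌉ : ℤ) : ℝ) := by
        have : 0 ≤ ⌊g ω + K⌋ + 1 - ⌈g ω - K⌉ := by omega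
        rw [Int.toNat_of_nonneg this]
      have h6 : (((⌊g ω + K⌋ + 1 - ⌈g ω - K⌉).toNat : ℕ) : ℝ) =
          ((⌊g ω + K⌋ + 1 - ⌈g ω - K⌉ : ℤ) : ℝ) := by exact_mod_cast h5
      rw [h6]
      push_cast
      have h7 := Int.floor_le (g ω + K)
      have h8 := Int.le_ceil (g ω - K)
      linarith
  calc Ex q (fun ω => Real.log ((F (Z ω)).card : ℝ)) ≤ ∑ ω, q ω * Real.log (2 * K + 1) :=
        Finset.sum_le_sum fun ω _ => h3 ω
    _ = Real.log (2 * K + 1) := by rw [← Finset.sum_mul, hq.sum_one, one_mul]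

/-- Rows of two numbers which are equal up to a function of the condition. -/
theorem rows_le {q : Ω → ℝ} (hq : IsLaw q) (Z : Ω → T) (c : Ω → γ) (hc : Det q Z c)
    {x x' κ : Ω → ℝ} (hκ : Det q Z κ) {K : ℝ} (hK : 0 ≤ K) {r a b : ℕ} (hab : a ≤ b)
    (h : ∀ ω, 0 < q ω → |2 ^ r * x ω - x' ω - κ ω| * 2 ^ b ≤ K) :
    CH q (Uni.dg b x') (fun ω => (Uni.dg a x' ω, Z ω)) ≤
      CH q (Uni.dg (r + b) x) (fun ω => (Uni.dg (r + a) x ω, c ω)) +
        2 * Real.log (2 * (K + 2) + 1) := by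
  have h0 := hq.nonneg
  have key : ∀ n, n ≤ b → ∀ ω, 0 < q ω →
      |(Uni.dg n x' ω : ℝ) - (Uni.dg (r + n) x ω - 2 ^ n * κ ω)| ≤ K + 2 := by
    intro n hn ω hω
    have h1 := h ω hω
    have h2 : |2 ^ r * x ω - x' ω - κ ω| * 2 ^ n ≤ K :=
      (mul_le_mul_of_nonneg_left (pow_le_pow_right₀ (by norm_num) hn) (abs_nonneg _)).trans h1
    rw [← abs_of_pos (by positivity : (0 : ℝ) < 2 ^ n), ← abs_mul] at h2
    have h3 := abs_le.1 h2
    unfold Uni.dg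
    have f1 := Int.floor_le ((2 : ℝ) ^ n * x' ω)
    have f2 := Int.lt_floor_add_one ((2 : ℝ) ^ n * x' ω)
    have f3 := Int.floor_le ((2 : ℝ) ^ (r + n) * x ω)
    have f4 := Int.lt_floor_add_one ((2 : ℝ) ^ (r + n) * x ω)
    have e : (2 : ℝ) ^ (r + n) * x ω = 2 ^ r * x ω * 2 ^ n := by rw [pow_add]; ring
    rw [e] at f3 f4 ⊢
    rw [abs_le]
    constructor <;> nlinarith
  -- the last rows
  have s1 : CH q (Uni.dg b x') (fun ω => (Uni.dg (r + b) x ω, (Uni.dg (r + a) x ω, Z ω))) ≤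
      Real.log (2 * (K + 2) + 1) := by
    refine CH_near hq _ _ (fun ω => Uni.dg (r + b) x ω - 2 ^ b * κ ω) ?_ (by linarith)
      (key b le_rfl)
    intro ω ω' hω hω' e
    have e1 := Prod.ext_iff.mp e
    have e2 := Prod.ext_iff.mp e1.2
    have e3 : Uni.dg (r + b) x ω = Uni.dg (r + b) x ω' := e1.1
    have e4 := hκ ω ω' hω hω' e2.2
    show ((Uni.dg (r + b) x ω : ℝ) - 2 ^ b * κ ω) = _
    rw [e3, e4]
  -- the first rows
  have s2 : CH q (Uni.dg (r + a) x) (fun ω => (Uni.dg a x' ω, Z ω)) ≤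
      Real.log (2 * (K + 2) + 1) := by
    refine CH_near hq _ _ (fun ω => Uni.dg a x' ω + 2 ^ a * κ ω) ?_ (by linarith) ?_
    · intro ω ω' hω hω' e
      have e1 := Prod.ext_iff.mp e
      have e3 : Uni.dg a x' ω = Uni.dg a x' ω' := e1.1
      have e4 := hκ ω ω' hω hω' e1.2
      show ((Uni.dg a x' ω : ℝ) + 2 ^ a * κ ω) = _
      rw [e3, e4]
    · intro ω hω
      have h1 := abs_le.1 (key a hab ω hω)
      rw [abs_le]
      constructor <;> linarith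
  -- the chain
  have t1 : CH q (Uni.dg b x') (fun ω => (Uni.dg a x' ω, Z ω)) ≤
      CH q (Uni.dg (r + a) x) (fun ω => (Uni.dg a x' ω, Z ω)) +
        CH q (Uni.dg b x') (fun ω => (Uni.dg (r + a) x ω, (Uni.dg a x' ω, Z ω))) := by
    have c1 := CH_le_add h0 (Uni.dg b x') (Uni.dg (r + a) x) (fun ω => (Uni.dg a x' ω, Z ω))
    linarith
  have t2 : CH q (Uni.dg b x') (fun ω => (Uni.dg (r + a) x ω, (Uni.dg a x' ω, Z ω))) ≤
      CH q (Uni.dg b x') (fun ω => (Uni.dg (r + a) x ω, Z ω)) := by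
    refine CH_mono_cond h0 ?_
    intro ω ω' _ _ e
    have e1 := Prod.ext_iff.mp e
    have e2 := Prod.ext_iff.mp e1.2
    exact Prod.ext e1.1 e2.2
  have t3 : CH q (Uni.dg b x') (fun ω => (Uni.dg (r + a) x ω, Z ω)) ≤
      CH q (Uni.dg (r + b) x) (fun ω => (Uni.dg (r + a) x ω, Z ω)) +
        CH q (Uni.dg b x') (fun ω => (Uni.dg (r + b) x ω, (Uni.dg (r + a) x ω, Z ω))) :=
    CH_le_add h0 (Uni.dg b x') (Uni.dg (r + b) x) (fun ω => (Uni.dg (r + a) x ω, Z ω))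
  have t4 : CH q (Uni.dg (r + b) x) (fun ω => (Uni.dg (r + a) x ω, Z ω)) ≤
      CH q (Uni.dg (r + b) x) (fun ω => (Uni.dg (r + a) x ω, c ω)) := by
    refine CH_mono_cond h0 ?_
    intro ω ω' hω hω' e
    have e1 := Prod.ext_iff.mp e
    exact Prod.ext e1.1 (hc ω ω' hω hω' e1.2)
  linarith

theorem OCData.mono_law {p q : Ω → ℝ} {b : Ω → β} {L : Ω → Λ} {T : Ω → Θ}
    {y om be m0 th S nu : Ω → ℝ} (h : OCData p b L T y om be m0 th S nu) (hq : IsLaw q)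
    (hqp : ∀ ω, 0 < q ω → 0 < p ω) : OCData q b L T y om be m0 th S nu := by
  have key : ∀ {τ σ : Type} {A : Ω → τ} {x : Ω → σ}, Det p A x → Det q A x :=
    fun hd ω ω' a a' e => hd ω ω' (hqp ω a) (hqp ω' a') e
  exact ⟨hq, key h.dy, key h.dom, key h.dbe, key h.dm0, key h.dth, key h.dS,
    fun ω hω => h.hy ω (hqp ω hω), fun ω hω => h.hom ω (hqp ω hω),
    fun ω hω => h.hbe ω (hqp ω hω), fun ω hω => h.hth ω (hqp ω hω),
    fun ω hω => h.hS ω (hqp ω hω), fun ω hω => h.hnu ω (hqp ω hω)⟩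

end Sel

/-- **OCD from OCB.** -/
theorem ocd_of (hOCB : OCBStmt) : OCDStmt := by
  classical
  intro ε₀ ca K hε₀ hca hK
  obtain ⟨ε, hε⟩ : ∃ ε, ε = min ε₀ 1 := ⟨_, rfl⟩
  have hεp : 0 < ε := by rw [hε]; exact lt_min hε₀ one_pos
  have hε1 : ε ≤ 1 := by rw [hε]; exact min_le_right _ _
  have hεε : ε ≤ ε₀ := by rw [hε]; exact min_le_left _ _
  obtain ⟨x₀, κ, ϖ₁, ι, ε₁, X₁, hx₀, hκ, hκ1, hϖ₁, hι, hε₁, hOC⟩ :=
    hOCB (ε / 32) ca (by positivity) hca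
  obtain ⟨η, ϖ, n₁, hη, hϖ, hsel⟩ := Sel.sel ε κ hεp hε1 hκ
  obtain ⟨lK, hlK⟩ : ∃ lK, lK = Real.log (2 * (K + 2) + 1) := ⟨_, rfl⟩
  have hlK0 : 0 ≤ lK := by rw [hlK]; exact Real.log_nonneg (by linarith)
  obtain ⟨u, hu⟩ : ∃ u, u = Real.log 2 := ⟨_, rfl⟩
  have hu0 : 0 < u := by rw [hu]; exact Real.log_pos (by norm_num)
  -- the sizes of the sub-blocks
  obtain ⟨X₂, hX₂⟩ := exists_nat_ge ((X₁ + 2 / κ + 4 / κ * (64 * lK / (ε * u))) / η)
  refine ⟨x₀, η, ϖ, ι, ε₁, n₁ + X₂ + 1, hx₀, hη, hϖ, hι, hε₁, ?_⟩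
  intro Ω β Λ Θ _ p b L T y om be m0 S nu th d X hd hX hdat hnest hlnk hhyp
  have hXd : (n₁ + X₂ + 1) * d ≤ X := hX
  have hX1 : 1 ≤ X := by
    have : 1 * 1 ≤ (n₁ + X₂ + 1) * d := Nat.mul_le_mul (by omega) hd
    omega
  have hXX₂ : X₂ ≤ X := by
    have h1 : X₂ * 1 ≤ (n₁ + X₂ + 1) * d := Nat.mul_le_mul (by omega) hd
    omega
  have hXn₁ : n₁ * d ≤ X := (Nat.mul_le_mul_right d (by omega)).trans hXd
  have hXr : (0 : ℝ) < X := by exact_mod_cast hX1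
  have hp : IsLaw p := (hdat 0 (dvd_zero _) (Nat.zero_le _)).law
  by_contra hcon
  have hcon := not_le.1 hcon
  have hCH : CH p (Uni.dg X (nu 0)) (fun ω => (Uni.dg 0 (nu 0) ω, (b 0 ω, T ω))) ≤
      (1 - ε) * X * Real.log 2 := by
    have h1 : CH p (Uni.dg X (nu 0)) (fun ω => (Uni.dg 0 (nu 0) ω, (b 0 ω, T ω))) ≤
        CH p (Uni.dg X (nu 0)) (fun ω => (b 0 ω, T ω)) :=
      CH_mono_cond hp.nonneg fun ω ω' _ _ e => (Prod.ext_iff.mp e).2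
    have h2 : (1 - ε₀) * X * Real.log 2 ≤ (1 - ε) * X * Real.log 2 := by
      rw [← hu]
      exact mul_le_mul_of_nonneg_right (mul_le_mul_of_nonneg_right (by linarith) hXr.le) hu0.le
    linarith
  obtain ⟨r, X', A, hdr, hdX', hrX, hηX, hA, hq⟩ := hsel p (fun r => Uni.dg r (nu 0))
    (fun ω => (b 0 ω, T ω)) d X hp (Sel.nst_dg _) hd hX1 hXn₁ hCH
  have hrX' : r ≤ X := by omega
  have hApos : 0 < Pe p A := hϖ.trans_le hA
  have hqlaw : IsLaw (Pool.Agent.H49.Ent.cond p A True) := Uni.isLaw_cond' hp.nonneg A hApos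
  have hqA : ∀ ω, 0 < Pool.Agent.H49.Ent.cond p A True ω → 0 < p ω ∧ A ω := fun ω hω => by
    have := (cond_pos_iff hp.nonneg A True ω).1 hω
    exact ⟨this.1, of_eq_true this.2⟩
  obtain ⟨κf, hκf, hκb⟩ := hlnk r hdr hrX'
  have hH := hhyp r X' hdr hdX' hηX hrX A hA
  -- the size of the block
  have hX2r : (X₁ + 2 / κ + 4 / κ * (64 * lK / (ε * u))) / η ≤ X :=
    hX₂.trans (by exact_mod_cast hXX₂)
  rw [div_le_iff₀ hη] at hX2r
  have hX'r : X₁ + 2 / κ + 4 / κ * (64 * lK / (ε * u)) ≤ (X' : ℝ) := by linarith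
  have g1 : 0 ≤ 4 / κ * (64 * lK / (ε * u)) := by positivity
  have g2 : 0 < 2 / κ := by positivity
  have hX1' : X₁ ≤ X' := by
    have : (X₁ : ℝ) ≤ X' := by linarith
    exact_mod_cast this
  obtain ⟨h, hh⟩ : ∃ h, h = ⌊κ * X'⌋₊ := ⟨_, rfl⟩
  have hX'0 : (0 : ℝ) ≤ X' := Nat.cast_nonneg _
  have hκX : 2 ≤ κ * X' := by
    have : 2 / κ ≤ X' := by
      have : (0 : ℝ) ≤ X₁ := Nat.cast_nonneg _
      linarith
    rw [div_le_iff₀ hκ] at this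
    linarith
  have hhlo : κ * X' ≤ 2 * h := by
    have : κ * X' < h + 1 := by rw [hh]; exact Nat.lt_floor_add_one _
    linarith
  have hhbig : 64 * lK ≤ ε * (h * u) := by
    have h1 : 4 / κ * (64 * lK / (ε * u)) ≤ X' := by
      have : (0 : ℝ) ≤ X₁ := Nat.cast_nonneg _
      linarith
    rw [div_mul_eq_mul_div, div_le_iff₀ hκ] at h1
    have h2 : 64 * lK / (ε * u) ≤ h := by linarith
    rw [div_le_iff₀ (by positivity)] at h2
    linarith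
  refine hOC Ω β Λ Θ (Pool.Agent.H49.Ent.cond p A True) (b r) L T (y r) (om r) (be r) (m0 r) th
    (S r) (nu r) X' (Sel.OCData.mono_law (hdat r hdr hrX') hqlaw fun ω hω => (hqA ω hω).1) hX1'
    hH.h1 hH.h1' hH.h2 hH.h3 hH.h4 ?_ hH.h6
  intro j hj E hE
  rw [← hh] at hj ⊢
  have hEpos : 0 < Pe (Pool.Agent.H49.Ent.cond p A True) E := hϖ₁.trans_le hE
  have hElaw : IsLaw (Pool.Agent.H49.Ent.cond (Pool.Agent.H49.Ent.cond p A True) E True) :=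
    Uni.isLaw_cond' hqlaw.nonneg E hEpos
  have hEp : ∀ ω, 0 < Pool.Agent.H49.Ent.cond (Pool.Agent.H49.Ent.cond p A True) E True ω →
      0 < p ω ∧ A ω := fun ω hω =>
    hqA ω ((cond_pos_iff hqlaw.nonneg E True ω).1 hω).1
  have hjh : j * h ≤ (j + 1) * h := Nat.mul_le_mul_right h (by omega)
  have h1 := Sel.rows_le hElaw (fun ω => (b r ω, T ω)) (fun ω => (b 0 ω, T ω))
    (fun ω ω' hω hω' e => Prod.ext (hnest r hdr hrX' ω ω' (hEp ω hω).1 (hEp ω' hω').1 e)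
      (Prod.ext_iff.mp e).2) (x := nu 0) (x' := nu r) (κ := κf)
    (fun ω ω' hω hω' e => hκf ω ω' (hEp ω hω).1 (hEp ω' hω').1 e) hK (r := r) (a := j * h)
    (b := (j + 1) * h) hjh (fun ω hω => by
      refine le_trans (mul_le_mul_of_nonneg_left ?_ (abs_nonneg _)) (hκb ω (hEp ω hω).1)
      exact pow_le_pow_right₀ (by norm_num) (by omega))
  have h2 := hq _ hElaw hEp (j * h) ((j + 1) * h) hjh hj (by
    push_cast
    linarith)
  refine h1.trans ?_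
  have h3 : (((j + 1) * h : ℕ) : ℝ) - ((j * h : ℕ) : ℝ) = h := by
    push_cast
    ring
  rw [h3] at h2
  rw [← hlK, ← hu]
  rw [← hu] at h2
  have h4 : CH (Pool.Agent.H49.Ent.cond (Pool.Agent.H49.Ent.cond p A True) E True)
      (Uni.dg (r + (j + 1) * h) (nu 0))
      (fun ω => (Uni.dg (r + j * h) (nu 0) ω, (b 0 ω, T ω))) ≤ (1 - ε / 16) * (h * u) := h2
  have h5 : (1 - ε / 16) * (h * u) + 2 * lK ≤ (1 - ε / 32) * h * u := by linarith
  linarith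

/-- **Theorem OC in density form.** -/
theorem ocd_thm (hOC : OCStmt) : OCDStmt := ocd_of (ocb_thm hOC)

end Pool.K2S
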