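import Pool.Agent.H59.OC.OCB

/-!
# The selection lemma: a block of rows which is not full on any event

If the rows of a number are not full in the mean, given the context, then there are a sub-block of
rows and an event of constant probability such that on every smaller event every short block of
rows of the sub-block is not full.
-/

set_option autoImplicit false

namespace Pool.K2S

open Finset Real
open Pool.Agent.H49.Ent Pool.Agent.H32.Dense Pool.STK Pool.KA Pool.OC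

namespace Sel

variable {Ω S T γ : Type} [Fintype Ω]

/-- The information of `Y` given `Z` at a sample. -/
noncomputable def ifo (p : Ω → ℝ) (Y : Ω → S) (Z : Ω → T) (ω : Ω) : ℝ :=
  Real.log (law p Z (Z ω)) - Real.log (law p (fun ω => (Y ω, Z ω)) (Y ω, Z ω))

theorem sum_ifo (p : Ω → ℝ) (Y : Ω → S) (Z : Ω → T) :
    ∑ ω, p ω * ifo p Y Z ω = CH p Y Z := by
  unfold ifo CH H
  rw [sub_neg_eq_add, neg_add_eq_sub, ← Finset.sum_sub_distrib]
  exact Finset.sum_congr rfl fun ω _ => by ring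

/-- Conditional entropies for a smaller law are at most the mean information. -/
theorem CH_le_ifo {p q : Ω → ℝ} (hp : ∀ ω, 0 ≤ p ω) (hq : IsLaw q)
    (hqp : ∀ ω, 0 < q ω → 0 < p ω) (Y : Ω → S) (Z : Ω → T) :
    CH q Y Z ≤ ∑ ω, q ω * ifo p Y Z ω := by
  classical
  rw [← sum_ifo q Y Z, ← sub_nonneg, ← Finset.sum_sub_distrib]
  obtain ⟨W, hW⟩ : ∃ W : Ω → S × T, W = fun ω => (Y ω, Z ω) := ⟨_, rfl⟩
  have hsum : ∑ ω, q ω * (law p W (W ω) * law q Z (Z ω) / (law p Z (Z ω) * law q W (W ω))) ≤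
      1 := by
    have e1 : ∑ ω, q ω * (law p W (W ω) * law q Z (Z ω) / (law p Z (Z ω) * law q W (W ω))) =
        ∑ w ∈ univ.image W, law q W w * (law p W w * law q Z w.2 / (law p Z w.2 * law q W w)) := by
      rw [← sum_mul_eq_sum_image q W
        (fun w => law p W w * law q Z w.2 / (law p Z w.2 * law q W w))]
      refine Finset.sum_congr rfl fun ω _ => ?_
      rw [hW]
    have e2 : ∀ w ∈ univ.image W,
        law q W w * (law p W w * law q Z w.2 / (law p Z w.2 * law q W w)) ≤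
          law p W w * (law q Z w.2 / law p Z w.2) := by
      intro w _
      have h1 := law_nonneg hq.nonneg W w
      have h2 := law_nonneg hp W w
      have h3 := law_nonneg hq.nonneg Z w.2
      have h4 := law_nonneg hp Z w.2
      rcases h1.eq_or_lt with h0 | h0
      · rw [← h0, zero_mul]
        positivity
      · rcases h4.eq_or_lt with h5 | h5
        · rw [← h5]
          simp
        · refine le_of_eq ?_
          field_simp
    rw [e1]
    refine (Finset.sum_le_sum e2).trans ?_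
    rw [← sum_mul_eq_sum_image p W (fun w => law q Z w.2 / law p Z w.2)]
    have e3 : ∑ ω, p ω * (law q Z (W ω).2 / law p Z (W ω).2) =
        ∑ z ∈ univ.image Z, law p Z z * (law q Z z / law p Z z) := by
      rw [← sum_mul_eq_sum_image p Z (fun z => law q Z z / law p Z z)]
      refine Finset.sum_congr rfl fun ω _ => ?_
      rw [hW]
    rw [e3]
    calc ∑ z ∈ univ.image Z, law p Z z * (law q Z z / law p Z z) ≤
          ∑ z ∈ univ.image Z, law q Z z := by
          refine Finset.sum_le_sum fun z _ => ?_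
          have h3 := law_nonneg hq.nonneg Z z
          rcases (law_nonneg hp Z z).eq_or_lt with h5 | h5
          · rw [← h5, zero_mul]
            exact h3
          · rw [mul_div_cancel₀ _ h5.ne']
      _ = 1 := by rw [sum_law, hq.sum_one]
  have hpt : ∀ ω, q ω * (1 - law p W (W ω) * law q Z (Z ω) / (law p Z (Z ω) * law q W (W ω))) ≤
      q ω * ifo p Y Z ω - q ω * ifo q Y Z ω := by
    intro ω
    rcases (hq.nonneg ω).eq_or_lt with h0 | h0
    · rw [← h0]
      simp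
    have hpω := hqp ω h0
    have a1 := law_pos hp W hpω
    have a2 := law_pos hp Z hpω
    have a3 := law_pos hq.nonneg W h0
    have a4 := law_pos hq.nonneg Z h0
    rw [← mul_sub]
    refine mul_le_mul_of_nonneg_left ?_ h0.le
    have hx : 0 < law p W (W ω) * law q Z (Z ω) / (law p Z (Z ω) * law q W (W ω)) := by
      positivity
    have h1 := Real.log_le_sub_one_of_pos hx
    rw [Real.log_div (by positivity) (by positivity), Real.log_mul a1.ne' a4.ne',
      Real.log_mul a2.ne' a3.ne'] at h1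
    unfold ifo
    rw [hW] at h1 ⊢
    simp only at h1 ⊢
    linarith only [h1]
  refine le_trans ?_ (Finset.sum_le_sum fun ω _ => hpt ω)
  simp_rw [mul_sub, mul_one]
  rw [Finset.sum_sub_distrib, hq.sum_one]
  linarith only [hsum]

/-! ### The path of a sample -/

/-- Nested rows. -/
def Nst (R : ℕ → Ω → ℤ) : Prop := ∀ r ω, R r ω = R (r + 1) ω / 2

omit [Fintype Ω] in
theorem Nst.div {R : ℕ → Ω → ℤ} (hR : Nst R) (r k : ℕ) (ω : Ω) :
    R r ω = R (r + k) ω / 2 ^ k := by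
  induction k with
  | zero => simp
  | succ k ih =>
    rw [ih, hR (r + k) ω, Int.ediv_ediv_of_nonneg (by norm_num), pow_succ']
    rfl

/-- The information of the first `r` rows. -/
noncomputable def pth (p : Ω → ℝ) (R : ℕ → Ω → ℤ) (c : Ω → γ) (r : ℕ) (ω : Ω) : ℝ :=
  -Real.log (law p (fun ω => (R r ω, c ω)) (R r ω, c ω))

theorem ifo_eq {p : Ω → ℝ} {R : ℕ → Ω → ℤ} (hR : Nst R) (c : Ω → γ) {r r' : ℕ} (h : r ≤ r')
    (ω : Ω) : ifo p (R r') (fun ω => (R r ω, c ω)) ω = pth p R c r' ω - pth p R c r ω := by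
  obtain ⟨k, rfl⟩ := Nat.exists_eq_add_of_le h
  unfold ifo pth
  have e : law p (fun ω => (R (r + k) ω, (R r ω, c ω))) (R (r + k) ω, (R r ω, c ω)) =
      law p (fun ω => (R (r + k) ω, c ω)) (R (r + k) ω, c ω) := by
    classical
    unfold law
    refine Finset.sum_congr rfl fun ω' _ => ?_
    have : ((R (r + k) ω', (R r ω', c ω')) = (R (r + k) ω, (R r ω, c ω))) ↔
        ((R (r + k) ω', c ω') = (R (r + k) ω, c ω)) := by
      constructor
      · intro h
        have h1 := Prod.ext_iff.mp h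
        have h2 := Prod.ext_iff.mp h1.2
        exact Prod.ext h1.1 h2.2
      · intro h
        have h1 := Prod.ext_iff.mp h
        have h3 : R (r + k) ω' = R (r + k) ω := h1.1
        refine Prod.ext h3 (Prod.ext ?_ h1.2)
        show R r ω' = R r ω
        rw [hR.div r k ω', hR.div r k ω, h3]
    by_cases h1 : (R (r + k) ω', c ω') = (R (r + k) ω, c ω)
    · rw [if_pos h1, if_pos (this.2 h1)]
    · rw [if_neg h1, if_neg fun h2 => h1 (this.1 h2)]
  rw [e]
  ring

theorem pth_mono {p : Ω → ℝ} (hp : ∀ ω, 0 ≤ p ω) {R : ℕ → Ω → ℤ} (hR : Nst R) (c : Ω → γ)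
    {ω : Ω} (hω : 0 < p ω) : Monotone fun r => pth p R c r ω := by
  intro r r' h
  obtain ⟨k, rfl⟩ := Nat.exists_eq_add_of_le h
  show pth p R c r ω ≤ pth p R c (r + k) ω
  unfold pth
  rw [neg_le_neg_iff]
  refine Real.log_le_log (law_pos hp (fun ω => (R (r + k) ω, c ω)) hω) ?_
  refine law_mono_of_det hp (X := fun ω => (R (r + k) ω, c ω)) (Y := fun ω => (R r ω, c ω)) ?_ hω
  intro ω₁ ω₂ _ _ h
  have h1 := Prod.ext_iff.mp h
  have h3 : R (r + k) ω₁ = R (r + k) ω₂ := h1.1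
  refine Prod.ext ?_ h1.2
  show R r ω₁ = R r ω₂
  rw [hR.div r k ω₁, hR.div r k ω₂, h3]

/-! ### Linear pieces of a monotone function -/

/-- Sums over the children. -/
theorem sum_children (f : ℕ → ℝ) (r ℓ M : ℕ) :
    ∑ i ∈ range M, (f (r + (i + 1) * ℓ) - f (r + i * ℓ)) = f (r + M * ℓ) - f r := by
  have := Finset.sum_range_sub (fun i => f (r + i * ℓ)) M
  simp only [Nat.zero_mul, Nat.add_zero] at this
  exact this

/-- **A piece on which all slopes are small.** -/
theorem piece {f : ℕ → ℝ} (hf : Monotone f) {M g : ℕ} (hM : 2 ≤ M) (hg : 0 < g) {ε u : ℝ}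
    (hε : 0 < ε) (hu : 0 < u) :
    ∀ (n r : ℕ) (σ : ℝ), σ < n * (ε / (2 * M)) → σ ≤ 1 - ε →
      f (r + g * M ^ n) - f r ≤ σ * (g * M ^ n) * u →
      ∃ k a : ℕ, k < n ∧ g * a + g * M ^ (k + 1) ≤ g * M ^ n ∧
        ∀ i < M, f (r + g * a + (i + 1) * (g * M ^ k)) - f (r + g * a + i * (g * M ^ k)) ≤
          (1 - ε / 2) * (g * M ^ k) * u := by
  intro n
  induction n with
  | zero =>
    intro r σ h1 _ h3
    exfalso
    have h4 : f r ≤ f (r + g * M ^ 0) := hf (by omega)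
    rw [Nat.cast_zero, zero_mul] at h1
    have hg' : (0 : ℝ) < g := by exact_mod_cast hg
    have : σ * (g * (M : ℝ) ^ 0) * u < 0 := by
      rw [pow_zero, mul_one]
      have := mul_pos hg' hu
      nlinarith only [h3, h4, h1, this]
    linarith only [h3, h4, this]
  | succ n ih =>
    intro r σ h1 h2 h3
    have hg' : (0 : ℝ) < g := by exact_mod_cast hg
    have hM' : (2 : ℝ) ≤ M := by exact_mod_cast hM
    have hMn : (0 : ℝ) < (M : ℝ) ^ n := by positivity
    by_cases hall : ∀ i < M, f (r + g * 0 + (i + 1) * (g * M ^ n)) -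
        f (r + g * 0 + i * (g * M ^ n)) ≤ (1 - ε / 2) * (g * M ^ n) * u
    · exact ⟨n, 0, by omega, by omega, hall⟩
    · push Not at hall
      obtain ⟨i₀, hi₀, hlt⟩ := hall
      simp only [Nat.mul_zero, Nat.add_zero] at hlt
      -- one child has a small slope
      have hch : ∃ i ∈ (range M).erase i₀, f (r + (i + 1) * (g * M ^ n)) -
          f (r + i * (g * M ^ n)) ≤ (σ - ε / (2 * M)) * (g * M ^ n) * u := by
        by_contra hcon
        push Not at hcon
        have s1 := sum_children f r (g * M ^ n) M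
        rw [← Finset.add_sum_erase _ _ (Finset.mem_range.2 hi₀)] at s1
        have s2 : ((range M).erase i₀).card • ((σ - ε / (2 * M)) * (g * M ^ n) * u) ≤
            ∑ i ∈ (range M).erase i₀, (f (r + (i + 1) * (g * M ^ n)) -
              f (r + i * (g * M ^ n))) :=
          Finset.card_nsmul_le_sum _ _ _ fun i hi => (hcon i hi).le
        rw [Finset.card_erase_of_mem (Finset.mem_range.2 hi₀), Finset.card_range,
          nsmul_eq_mul, Nat.cast_sub (by omega), Nat.cast_one] at s2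
        have e1 : M * (g * M ^ n) = g * M ^ (n + 1) := by rw [pow_succ]; ring
        rw [e1] at s1
        have e2 : σ * (g * (M : ℝ) ^ (n + 1)) * u = M * (σ * (g * (M : ℝ) ^ n) * u) := by
          rw [pow_succ]; ring
        rw [e2] at h3
        obtain ⟨G, hG⟩ : ∃ G : ℝ, G = g * (M : ℝ) ^ n * u := ⟨_, rfl⟩
        have hG0 : 0 < G := by rw [hG]; positivity
        have e3 : σ * (g * (M : ℝ) ^ n) * u = σ * G := by rw [hG]; ring
        have e4 : (σ - ε / (2 * M)) * (g * (M : ℝ) ^ n) * u = (σ - ε / (2 * M)) * G := by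
          rw [hG]; ring
        have e5 : (1 - ε / 2) * (g * (M : ℝ) ^ n) * u = (1 - ε / 2) * G := by rw [hG]; ring
        rw [e3] at h3
        rw [e4] at s2
        rw [e5] at hlt
        have e6 : ((M : ℝ) - 1) * ((σ - ε / (2 * M)) * G) =
            (M * σ - σ - ε / 2 + ε / (2 * M)) * G := by
          field_simp
          ring
        rw [e6] at s2
        have h7 : 0 < ε / (2 * M) * G := by positivity
        have h8 : (1 - ε / 2) * G + (M * σ - σ - ε / 2 + ε / (2 * M)) * G < M * (σ * G) := by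
          linarith only [s1, hlt, s2, h3]
        have h9 : (1 - ε - σ) * G + ε / (2 * M) * G < 0 := by nlinarith only [s1, hlt, s2, h3]
        have h10 : 0 ≤ (1 - ε - σ) * G := mul_nonneg (by linarith only [h2]) hG0.le
        linarith only [h7, h9, h10]
      obtain ⟨i, hi, hsl⟩ := hch
      have hiM : i < M := Finset.mem_range.1 (Finset.mem_of_mem_erase hi)
      have e0 : r + (i + 1) * (g * M ^ n) = (r + i * (g * M ^ n)) + g * M ^ n := by ring
      rw [e0] at hsl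
      have hδ : 0 < ε / (2 * (M : ℝ)) := by positivity
      obtain ⟨k, a, hk, ha, hc⟩ := ih (r + i * (g * M ^ n)) (σ - ε / (2 * M)) (by
        push_cast at h1
        linarith only [h1]) (by linarith only [h2, hδ]) hsl
      refine ⟨k, i * M ^ n + a, by omega, ?_, ?_⟩
      · have : g * (i * M ^ n + a) + g * M ^ (k + 1) =
            i * (g * M ^ n) + (g * a + g * M ^ (k + 1)) := by ring
        rw [this]
        calc i * (g * M ^ n) + (g * a + g * M ^ (k + 1)) ≤ i * (g * M ^ n) + g * M ^ n := by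
              omega
          _ = (i + 1) * (g * M ^ n) := by ring
          _ ≤ M * (g * M ^ n) := Nat.mul_le_mul_right _ hiM
          _ = g * M ^ (n + 1) := by rw [pow_succ]; ring
      · intro j hj
        have := hc j hj
        have e1 : r + g * (i * M ^ n + a) = r + i * (g * M ^ n) + g * a := by ring
        rw [e1]
        exact this

theorem lt_div (a : ℕ) {ℓ : ℕ} (h : 0 < ℓ) : a < (a / ℓ + 1) * ℓ := by
  have h1 := Nat.div_add_mod a ℓ
  have h2 := Nat.mod_lt a h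
  have h3 : (a / ℓ + 1) * ℓ = ℓ * (a / ℓ) + ℓ := by ring
  omega

/-- Short blocks inside the piece. -/
theorem blocks {f : ℕ → ℝ} (hf : Monotone f) {M ℓ r : ℕ} {s u : ℝ} (hs : 0 ≤ s) (hu : 0 ≤ u)
    (hℓ : 0 < ℓ)
    (hc : ∀ i < M, f (r + (i + 1) * ℓ) - f (r + i * ℓ) ≤ s * ℓ * u) {a b : ℕ} (hab : a ≤ b)
    (hb : b ≤ M * ℓ) : f (r + b) - f (r + a) ≤ s * ((b : ℝ) - a + 2 * ℓ) * u := by
  obtain ⟨i, hi⟩ : ∃ i, i = a / ℓ := ⟨_, rfl⟩
  obtain ⟨j, hj⟩ : ∃ j, j = (b + ℓ - 1) / ℓ := ⟨_, rfl⟩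
  have hia : i * ℓ ≤ a := by rw [hi]; exact Nat.div_mul_le_self a ℓ
  have hai : a < (i + 1) * ℓ := by rw [hi]; exact lt_div a hℓ
  have hjb : b ≤ j * ℓ := by
    have h1 : b + ℓ - 1 < (j + 1) * ℓ := by rw [hj]; exact lt_div _ hℓ
    have h2 : (j + 1) * ℓ = j * ℓ + ℓ := by ring
    omega
  have hjb2 : j * ℓ ≤ b + ℓ - 1 := by rw [hj]; exact Nat.div_mul_le_self _ ℓ
  have hjM : j ≤ M := by
    rw [hj]
    have h1 : (b + ℓ - 1) / ℓ ≤ (M * ℓ + ℓ - 1) / ℓ := Nat.div_le_div_right (by omega)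
    have h2 : (M * ℓ + ℓ - 1) / ℓ = M := by
      have : M * ℓ + ℓ - 1 = ℓ * M + (ℓ - 1) := by rw [mul_comm]; omega
      rw [this, Nat.mul_add_div hℓ, Nat.div_eq_of_lt (by omega), Nat.add_zero]
    omega
  have hij : i ≤ j := by
    by_contra h
    have h1 : j + 1 ≤ i := by omega
    have h2 : (j + 1) * ℓ ≤ i * ℓ := Nat.mul_le_mul_right _ h1
    have h3 : (j + 1) * ℓ = j * ℓ + ℓ := by ring
    omega
  have h1 : f (r + b) ≤ f (r + j * ℓ) := hf (by omega)
  have h2 : f (r + i * ℓ) ≤ f (r + a) := hf (by omega)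
  have h3 : f (r + j * ℓ) - f (r + i * ℓ) ≤ ((j : ℝ) - i) * (s * ℓ * u) := by
    obtain ⟨n, rfl⟩ := Nat.exists_eq_add_of_le hij
    have h4 : ∀ n, i + n ≤ M → f (r + (i + n) * ℓ) - f (r + i * ℓ) ≤ n * (s * ℓ * u) := by
      intro n
      induction n with
      | zero => intro _; simp
      | succ n ih =>
        intro hn
        have h5 := ih (by omega)
        have h6 := hc (i + n) (by omega)
        have e : i + (n + 1) = i + n + 1 := by ring
        rw [e]
        push_cast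
        linarith only [h5, h6]
    have := h4 n hjM
    push_cast
    linarith only [this]
  have h5 : ((j : ℝ) - i) * ℓ ≤ (b : ℝ) - a + 2 * ℓ := by
    have h6 : (j * ℓ : ℝ) ≤ (b : ℝ) + ℓ := by
      exact_mod_cast (by omega : j * ℓ ≤ b + ℓ)
    have h7 : (a : ℝ) ≤ (i + 1) * ℓ := by exact_mod_cast hai.le
    linarith only [h6, h7]
  have h8 : ((j : ℝ) - i) * (s * ℓ * u) ≤ s * ((b : ℝ) - a + 2 * ℓ) * u := by
    calc ((j : ℝ) - i) * (s * ℓ * u) = s * (((j : ℝ) - i) * ℓ) * u := by ring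
      _ ≤ s * ((b : ℝ) - a + 2 * ℓ) * u :=
        mul_le_mul_of_nonneg_right (mul_le_mul_of_nonneg_left h5 hs) hu
  linarith only [h1, h2, h3, h8]

/-- Markov inequality for the path. -/
theorem good_path {p : Ω → ℝ} (hp : IsLaw p) {v : Ω → ℝ} (hv : ∀ ω, 0 < p ω → 0 ≤ v ω)
    {ε B : ℝ} (hε : 0 < ε) (hε1 : ε ≤ 1) (hB : 0 < B) (h : ∑ ω, p ω * v ω ≤ (1 - ε) * B) :
    ε / 2 ≤ Pe p (fun ω => 0 < p ω ∧ v ω ≤ (1 - ε / 2) * B) := by
  classical
  obtain ⟨G, hG⟩ : ∃ G : Ω → Prop, G = fun ω => 0 < p ω ∧ v ω ≤ (1 - ε / 2) * B := ⟨_, rfl⟩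
  rw [← hG, Pe_eq]
  have h1 : ∀ ω, (1 - ε / 2) * B * (p ω - (if G ω then p ω else 0)) ≤ p ω * v ω := by
    intro ω
    rcases (hp.nonneg ω).eq_or_lt with h0 | h0
    · rw [← h0]
      simp
    by_cases h2 : v ω ≤ (1 - ε / 2) * B
    · have h3 : G ω := by
        rw [hG]
        exact ⟨h0, h2⟩
      rw [if_pos h3, sub_self, mul_zero]
      exact mul_nonneg h0.le (hv ω h0)
    · have h3 : ¬ G ω := by
        rw [hG]
        exact fun h3 => h2 h3.2
      rw [if_neg h3, sub_zero, mul_comm]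
      exact mul_le_mul_of_nonneg_left (not_le.1 h2).le h0.le
  have h2 := Finset.sum_le_sum fun ω (_ : ω ∈ univ) => h1 ω
  rw [← Finset.mul_sum, Finset.sum_sub_distrib, hp.sum_one] at h2
  obtain ⟨s, hs⟩ : ∃ s, s = ∑ ω, (if G ω then p ω else 0) := ⟨_, rfl⟩
  rw [← hs] at h2 ⊢
  have h3 : (1 - ε / 2) * B * (1 - s) ≤ (1 - ε) * B := h2.trans h
  have h4 : (1 - ε / 2) * (1 - s) ≤ 1 - ε := by
    have : ((1 - ε / 2) * (1 - s)) * B ≤ (1 - ε) * B := by linarith only [h, h2]
    exact le_of_mul_le_mul_right this hB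
  by_contra hcon
  have hcon := not_le.1 hcon
  nlinarith

/-- Pigeonhole for events. -/
theorem pigeon {ι : Type} {p : Ω → ℝ} (hp : ∀ ω, 0 ≤ p ω) (F : Finset ι) (G : Ω → Prop)
    (E : ι → Ω → Prop) (h : ∀ ω, G ω → ∃ i ∈ F, E i ω) (hF : F.Nonempty) :
    ∃ i ∈ F, Pe p G / F.card ≤ Pe p (E i) := by
  classical
  by_contra hcon
  push Not at hcon
  have hc : (0 : ℝ) < F.card := by exact_mod_cast hF.card_pos
  have h1 : Pe p G ≤ ∑ i ∈ F, Pe p (E i) := by
    simp only [Pe_eq]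
    rw [Finset.sum_comm]
    refine Finset.sum_le_sum fun ω _ => ?_
    by_cases hG : G ω
    · rw [if_pos hG]
      obtain ⟨i, hi, hE⟩ := h ω hG
      have := Finset.single_le_sum (f := fun i => if E i ω then p ω else 0)
        (fun i _ => by split_ifs <;> simp [hp ω]) hi
      simpa [hE] using this
    · rw [if_neg hG]
      exact Finset.sum_nonneg fun i _ => by split_ifs <;> simp [hp ω]
  have h2 : ∑ i ∈ F, Pe p (E i) < ∑ _i ∈ F, Pe p G / F.card :=
    Finset.sum_lt_sum_of_nonempty hF hcon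
  rw [Finset.sum_const, nsmul_eq_mul, mul_div_cancel₀ _ hc.ne'] at h2
  exact absurd h1 (not_le.2 h2)

/-- **(SEL)** The selection lemma. `d` is the unit of the rows. -/
theorem sel (ε κ : ℝ) (hε : 0 < ε) (hε1 : ε ≤ 1) (hκ : 0 < κ) :
    ∃ (η ϖ : ℝ) (n₀ : ℕ), 0 < η ∧ 0 < ϖ ∧ ∀ {Ω γ : Type} [Fintype Ω] (p : Ω → ℝ)
      (R : ℕ → Ω → ℤ) (c : Ω → γ) (d X : ℕ), IsLaw p → Nst R → 1 ≤ d → 1 ≤ X → n₀ * d ≤ X →
      CH p (R X) (fun ω => (R 0 ω, c ω)) ≤ (1 - ε) * X * Real.log 2 →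
      ∃ (r X' : ℕ) (A : Ω → Prop), d ∣ r ∧ d ∣ X' ∧ r + X' ≤ X ∧ η * X ≤ X' ∧ ϖ ≤ Pe p A ∧
        ∀ q : Ω → ℝ, IsLaw q → (∀ ω, 0 < q ω → 0 < p ω ∧ A ω) → ∀ a b : ℕ, a ≤ b → b ≤ X' →
          κ * X' ≤ 2 * ((b : ℝ) - a) →
          CH q (R (r + b)) (fun ω => (R (r + a) ω, c ω)) ≤
            (1 - ε / 16) * (((b : ℝ) - a) * Real.log 2) := by
  classical
  obtain ⟨M, hM⟩ : ∃ M : ℕ, M = ⌈64 / (ε * κ)⌉₊ + 2 := ⟨_, rfl⟩
  have hM2 : 2 ≤ M := by omega
  have hMr : 64 / (ε * κ) ≤ M := by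
    rw [hM]
    push_cast
    linarith only [Nat.le_ceil (64 / (ε * κ))]
  obtain ⟨D, hD⟩ : ∃ D : ℕ, D = ⌈8 * M / ε⌉₊ + 1 := ⟨_, rfl⟩
  have hDr : 8 * M / ε < D := by
    rw [hD]
    push_cast
    linarith only [Nat.le_ceil (8 * M / ε)]
  have hD1 : 1 ≤ D := by omega
  obtain ⟨n₁, hn₁⟩ : ∃ n₁ : ℕ, n₁ = ⌈8 / ε⌉₊ + 2 := ⟨_, rfl⟩
  have hn₁r : 8 / ε ≤ n₁ := by
    rw [hn₁]
    push_cast
    linarith only [Nat.le_ceil (8 / ε)]
  have hn₁2 : 2 ≤ n₁ := by omega
  have hMD : 0 < M ^ D := by positivity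
  have hMDr : (0 : ℝ) < (M : ℝ) ^ D := by positivity
  refine ⟨1 / (2 * (M : ℝ) ^ D), ε / 2 / (D * (M : ℝ) ^ D), M ^ D * n₁, by positivity, ?_, ?_⟩
  · have : (0 : ℝ) < D := by exact_mod_cast hD1
    positivity
  intro Ω γ _ p R c d X hp hR hd hX1 hX hCH
  obtain ⟨u, hu⟩ : ∃ u, u = Real.log 2 := ⟨_, rfl⟩
  have hu0 : 0 < u := by rw [hu]; exact Real.log_pos (by norm_num)
  have hXr : (0 : ℝ) < X := by exact_mod_cast hX1
  have hdr : (0 : ℝ) < d := by exact_mod_cast hd
  -- the unit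
  obtain ⟨g, hg⟩ : ∃ g, g = X / (M ^ D * d) * d := ⟨_, rfl⟩
  have hgd : d ∣ g := by rw [hg]; exact Dvd.intro_left _ rfl
  have hMDd : 0 < M ^ D * d := Nat.mul_pos hMD hd
  have hgX : g * M ^ D ≤ X := by
    rw [hg]
    calc X / (M ^ D * d) * d * M ^ D = X / (M ^ D * d) * (M ^ D * d) := by ring
      _ ≤ X := Nat.div_mul_le_self _ _
  have hXg : X < g * M ^ D + M ^ D * d := by
    rw [hg]
    calc X < (X / (M ^ D * d) + 1) * (M ^ D * d) := lt_div X hMDd
      _ = X / (M ^ D * d) * d * M ^ D + M ^ D * d := by ring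
  have hXn : (n₁ : ℝ) * ((M : ℝ) ^ D * d) ≤ X := by
    have : M ^ D * n₁ * d ≤ X := hX
    have h1 : ((M ^ D * n₁ * d : ℕ) : ℝ) ≤ X := by exact_mod_cast this
    push_cast at h1
    linarith only [h1]
  have hXgr : (X : ℝ) < g * (M : ℝ) ^ D + (M : ℝ) ^ D * d := by exact_mod_cast hXg
  have hgXr : (g : ℝ) * (M : ℝ) ^ D ≤ X := by exact_mod_cast hgX
  have hMdX : (M : ℝ) ^ D * d ≤ ε / 8 * X := by
    have h1 : 8 / ε * ((M : ℝ) ^ D * d) ≤ X :=
      (mul_le_mul_of_nonneg_right hn₁r (by positivity)).trans hXn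
    rw [div_mul_eq_mul_div, div_le_iff₀ hε] at h1
    linarith only [h1]
  have hMdX2 : (M : ℝ) ^ D * d ≤ X / 2 := by
    have h1 : (2 : ℝ) * ((M : ℝ) ^ D * d) ≤ X := by
      refine le_trans (mul_le_mul_of_nonneg_right ?_ (by positivity)) hXn
      exact_mod_cast hn₁2
    linarith only [h1]
  have hgr : (1 / (2 * (M : ℝ) ^ D)) * X ≤ g := by
    rw [div_mul_eq_mul_div, one_mul, div_le_iff₀ (by positivity)]
    linarith only [hXgr, hMdX2]
  have hg0 : 0 < g := by
    have : (0 : ℝ) < g := lt_of_lt_of_le (by positivity) hgr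
    exact_mod_cast this
  -- the good paths
  have hsum : ∑ ω, p ω * ifo p (R X) (fun ω => (R 0 ω, c ω)) ω ≤ (1 - ε) * (X * u) := by
    rw [sum_ifo, hu]
    linarith only [hCH]
  have hG := good_path hp (v := ifo p (R X) (fun ω => (R 0 ω, c ω))) (fun ω hω => by
    rw [ifo_eq hR c (Nat.zero_le X)]
    exact sub_nonneg.2 (pth_mono hp.nonneg hR c hω (Nat.zero_le X))) hε hε1
    (B := X * u) (by positivity) hsum
  obtain ⟨E, hE⟩ : ∃ E : ℕ × ℕ → Ω → Prop, E = fun i ω => 0 < p ω ∧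
      g * i.2 + g * M ^ (i.1 + 1) ≤ g * M ^ D ∧
      ∀ j < M, pth p R c (0 + g * i.2 + (j + 1) * (g * M ^ i.1)) ω -
        pth p R c (0 + g * i.2 + j * (g * M ^ i.1)) ω ≤
          (1 - ε / 4 / 2) * (g * M ^ i.1) * u := ⟨_, rfl⟩
  obtain ⟨⟨k, a⟩, hka, hP⟩ := pigeon hp.nonneg (range D ×ˢ range (M ^ D))
    (fun ω => 0 < p ω ∧ ifo p (R X) (fun ω => (R 0 ω, c ω)) ω ≤ (1 - ε / 2) * (X * u)) E
    (by
      intro ω hω
      have hf := pth_mono hp.nonneg hR c hω.1
      have h1 : pth p R c (0 + g * M ^ D) ω - pth p R c 0 ω ≤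
          (1 - ε / 4) * (g * M ^ D) * u := by
        have h2 : pth p R c (0 + g * M ^ D) ω ≤ pth p R c X ω := hf (by omega)
        have h3 := hω.2
        rw [ifo_eq hR c (Nat.zero_le X)] at h3
        have h4 : (1 - ε / 2) * (X : ℝ) ≤ (1 - ε / 4) * (g * M ^ D) := by
          have h5 : (1 - ε / 8) * (X : ℝ) ≤ g * M ^ D := by linarith only [hXgr, hMdX]
          have h6 : (1 - ε / 4) * ((1 - ε / 8) * (X : ℝ)) ≤ (1 - ε / 4) * (g * M ^ D) :=
            mul_le_mul_of_nonneg_left h5 (by linarith only [hε1])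
          nlinarith only [hXgr, hgXr, hMdX, h6, hε, hXr, mul_pos (mul_pos hε hε) hXr, mul_pos hε hXr]
        have h5 := mul_le_mul_of_nonneg_right h4 hu0.le
        linarith only [h2, h3, h5]
      obtain ⟨k, a, hk, ha, hc⟩ := piece hf hM2 hg0 (ε := ε / 4) (u := u) (by positivity) hu0 D 0
        (1 - ε / 4) (by
          have h2 : 8 * M < D * ε := by rwa [div_lt_iff₀ hε] at hDr
          have h3 : (1 : ℝ) < D * (ε / 4 / (2 * M)) := by
            have hM0 : (0 : ℝ) < M := by positivity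
            rw [div_div, ← mul_div_assoc, lt_div_iff₀ (by positivity)]
            linarith only [h2]
          linarith only [hε, h3]) le_rfl h1
      refine ⟨(k, a), ?_, ?_⟩
      · rw [Finset.mem_product, Finset.mem_range, Finset.mem_range]
        refine ⟨hk, ?_⟩
        have h2 : 0 < g * M ^ (k + 1) := by positivity
        have h3 : g * a < g * M ^ D := by omega
        exact lt_of_mul_lt_mul_left h3 (Nat.zero_le _)
      · rw [hE]
        exact ⟨hω.1, ha, hc⟩)
    ⟨(0, 0), by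
      rw [Finset.mem_product, Finset.mem_range, Finset.mem_range]
      exact ⟨hD1, hMD⟩⟩
  have hPE : ε / 2 / (D * (M : ℝ) ^ D) ≤ Pe p (E (k, a)) := by
    refine le_trans ?_ hP
    rw [Finset.card_product, Finset.card_range, Finset.card_range]
    push_cast
    exact div_le_div_of_nonneg_right hG (by positivity)
  -- the event is not empty
  have hne : ∃ ω, E (k, a) ω := by
    by_contra hcon
    push Not at hcon
    have h1 : Pe p (E (k, a)) = 0 := by
      rw [Pe_eq]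
      exact Finset.sum_eq_zero fun ω _ => if_neg (hcon ω)
    rw [h1] at hPE
    have : (0 : ℝ) < ε / 2 / (D * (M : ℝ) ^ D) := by
      have : (0 : ℝ) < D := by exact_mod_cast hD1
      positivity
    linarith only [hPE, this]
  obtain ⟨ω₀, hω₀⟩ := hne
  rw [hE] at hω₀
  have hle : g * a + g * M ^ (k + 1) ≤ g * M ^ D := hω₀.2.1
  refine ⟨g * a, g * M ^ (k + 1), E (k, a), hgd.mul_right _, hgd.mul_right _, by omega, ?_, hPE,
    ?_⟩
  · refine hgr.trans ?_
    push_cast
    have h1 : (1 : ℝ) ≤ (M : ℝ) ^ (k + 1) := one_le_pow₀ (by exact_mod_cast (by omega : 1 ≤ M))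
    have hg' : (0 : ℝ) < g := by exact_mod_cast hg0
    nlinarith only [h1]
  intro q hq hqA x y hxy hy hκx
  refine (CH_le_ifo hp.nonneg hq (fun ω hω => (hqA ω hω).1) _ _).trans ?_
  have hpt : ∀ ω, q ω * ifo p (R (g * a + y)) (fun ω => (R (g * a + x) ω, c ω)) ω ≤
      q ω * ((1 - ε / 16) * (((y : ℝ) - x) * u)) := by
    intro ω
    rcases (hq.nonneg ω).eq_or_lt with h0 | h0
    · rw [← h0]
      simp
    refine mul_le_mul_of_nonneg_left ?_ h0.le
    obtain ⟨hω, hA⟩ := hqA ω h0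
    rw [hE] at hA
    have hf := pth_mono hp.nonneg hR c hω
    rw [ifo_eq hR c (by omega : g * a + x ≤ g * a + y)]
    have hℓ : 0 < g * M ^ k := by positivity
    have hc : ∀ i < M, (fun r => pth p R c r ω) (g * a + (i + 1) * (g * M ^ k)) -
        (fun r => pth p R c r ω) (g * a + i * (g * M ^ k)) ≤
        (1 - ε / 4 / 2) * ((g * M ^ k : ℕ) : ℝ) * u := by
      intro i hi
      have := hA.2.2 i hi
      simp only [Nat.zero_add] at this
      push_cast
      exact this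
    have h1 := blocks hf (s := 1 - ε / 4 / 2) (u := u) (by linarith only [hε1]) hu0.le hℓ hc hxy (by
      have : g * M ^ (k + 1) = M * (g * M ^ k) := by rw [pow_succ]; ring
      omega)
    refine h1.trans ?_
    have hX' : κ * ((g * M ^ (k + 1) : ℕ) : ℝ) ≤ 2 * ((y : ℝ) - x) := hκx
    have h2 : ((g * M ^ (k + 1) : ℕ) : ℝ) = M * ((g * M ^ k : ℕ) : ℝ) := by
      push_cast
      rw [pow_succ]
      ring
    rw [h2] at hX'
    have hℓr : (0 : ℝ) < ((g * M ^ k : ℕ) : ℝ) := by exact_mod_cast hℓ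
    obtain ⟨ℓ, hℓe⟩ : ∃ ℓ : ℝ, ℓ = ((g * M ^ k : ℕ) : ℝ) := ⟨_, rfl⟩
    rw [← hℓe] at hX' hℓr ⊢
    have h3 : 64 * ℓ ≤ ε * (κ * (M * ℓ)) := by
      have : 64 ≤ M * (ε * κ) := by
        rwa [div_le_iff₀ (by positivity)] at hMr
      nlinarith only [hℓr, this]
    have h4 : 32 * ℓ ≤ ε * ((y : ℝ) - x) := by
      have := mul_le_mul_of_nonneg_left hX' hε.le
      linarith only [h3, this]
    have h5 : (1 - ε / 4 / 2) * ((y : ℝ) - x + 2 * ℓ) ≤ (1 - ε / 16) * ((y : ℝ) - x) := by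
      have : 0 ≤ ε * ℓ := by positivity
      nlinarith only [h4, this]
    calc (1 - ε / 4 / 2) * ((y : ℝ) - x + 2 * ℓ) * u ≤ (1 - ε / 16) * ((y : ℝ) - x) * u :=
          mul_le_mul_of_nonneg_right h5 hu0.le
      _ = (1 - ε / 16) * (((y : ℝ) - x) * u) := by ring
  refine (Finset.sum_le_sum fun ω _ => hpt ω).trans (le_of_eq ?_)
  rw [← Finset.sum_mul, hq.sum_one, one_mul, hu]

end Sel

end Pool.K2S
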