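import Pool.Agent.H97.OC.Stmts
import Pool.Agent.H73.KAF.RST

/-!
# Theorem OC: the assembly

The heavy rows (`ROWStmt`) and the geometric part (`GEOStmt`) give the theorem, and the geometric
part is put together from its rows, with the order of the constants.
-/

set_option autoImplicit false

namespace Pool.OC

open Finset Real
open Pool.Agent.H49.Ent Pool.Agent.H32.Dense Pool.STK Pool.KAF

theorem Dat.H1.mono {d : Dat} {ι ι' : ℝ} (h : d.H1 ι) (hl : ι ≤ ι') : d.H1 ι' := by
  have hX : (0 : ℝ) ≤ d.X := Nat.cast_nonneg _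
  have hlog := Real.log_pos (by norm_num : (1 : ℝ) < 2)
  refine ⟨h.1.trans (mul_le_mul_of_nonneg_right hl hX), le_trans ?_ h.2⟩
  exact mul_le_mul_of_nonneg_right (mul_le_mul_of_nonneg_right (by linarith only [hl]) hX) hlog.le

theorem Dat.H2.mono {d : Dat} {ι ι' : ℝ} (h : d.H2 ι) (hl : ι ≤ ι') : d.H2 ι' :=
  le_trans h (mul_le_mul_of_nonneg_right hl (Nat.cast_nonneg _))

theorem Dat.H3.mono {d : Dat} {ι ι' : ℝ} (h : d.H3 ι) (hl : ι ≤ ι') : d.H3 ι' := by
  have hX : (0 : ℝ) ≤ d.X := Nat.cast_nonneg _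
  have hlog := Real.log_pos (by norm_num : (1 : ℝ) < 2)
  refine le_trans ?_ h
  exact mul_le_mul_of_nonneg_right (mul_le_mul_of_nonneg_right (by linarith only [hl]) hX) hlog.le

theorem J1.mono {d : Dat} {J : d.Om → Set ℕ} {h : ℕ} {u r r' : ℝ} (hJ : J1 d J h u r)
    (hl : r ≤ r') : J1 d J h u r' := le_trans hJ hl

theorem TA.mono {d : Dat} {n : ℕ} {ε ε' : ℝ} (h : TA d n ε) (hl : ε ≤ ε') : TA d n ε' :=
  fun i i' h1 h2 => (h i i' h1 h2).trans hl

theorem TB.mono {d : Dat} {n k' : ℕ} {ε ε' : ℝ} (h : TB d n k' ε) (hl : ε ≤ ε') :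
    TB d n k' ε' := by
  intro a b h1 h2
  refine (h a b h1 h2).trans (mul_le_mul_of_nonneg_right hl ?_)
  have : (a : ℝ) ≤ b := by exact_mod_cast (by omega : a ≤ b)
  linarith only [this]

theorem SPR.mono {d : Dat} {m : d.Lam → ℤ} {n a : ℕ} {ε ε' : ℝ} (h : SPR d m n a ε)
    (hl : ε ≤ ε') : SPR d m n a ε' :=
  le_trans h (mul_le_mul_of_nonneg_right hl (Nat.cast_nonneg _))

theorem NLC.mono {d : Dat} {m : d.Lam → ℤ} {n a : ℕ} {ε ε' : ℝ} (h : NLC d m n a ε)
    (hl : ε ≤ ε') : NLC d m n a ε' := fun i hi => (h i hi).trans hl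

theorem AGR.mono {d : Dat} {m : d.Lam → ℤ} {n k : ℕ} {Λ : d.Om → ℝ} {ε ε' : ℝ}
    (h : AGR d m n k Λ ε) (hl : ε ≤ ε') : AGR d m n k Λ ε' := fun i hi => (h i hi).trans hl

/-- **OCX.** Theorem OC from the two parts. -/
theorem oc_of (hR : ROWStmt) (hG : GEOStmt) : OCStmt := by
  intro A c ca hc hca
  obtain ⟨u, hu, hu1, hR⟩ := hR A c hc
  obtain ⟨k, k₁, e, κ, π₁, x₀, ε, he, hκ, hκ1, hπ, hx, hε, hG⟩ := hG A ca u hca hu hu1
  obtain ⟨δ, hδ, hR⟩ := hR k k₁ e he
  obtain ⟨π₀, X₁, hπ0, hR⟩ := hR κ π₁ hκ hκ1 hπ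
  obtain ⟨ι, X₂, hι, hG⟩ := hG δ hδ
  refine ⟨x₀, κ, π₀, min ι δ, ε, max X₁ X₂, hx, hκ, hκ1, hπ0, lt_min hι hδ, hε, ?_⟩
  intro d hd hX h1 h2 h3 h4 h5 h6
  obtain ⟨J, hJ1, hJ2⟩ := hR d hd ((le_max_left _ _).trans hX) (h2.mono (min_le_right _ _)) h5
  exact hG d hd ((le_max_right _ _).trans hX) (h1.mono (min_le_left _ _))
    (h2.mono (min_le_left _ _)) (h3.mono (min_le_left _ _)) h4 h6 J hJ1 hJ2

/-- The entropy of a label with few values. -/
theorem H_label {d : Dat} {A n : ℕ} (hd : d.OK A) (hn : 1 ≤ n) (m : d.Lam → ℤ)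
    (hm : ∀ l, -(4 * n : ℤ) ≤ m l ∧ m l ≤ 2 * n) :
    H d.P (fun ω => m (d.L ω)) ≤ Real.log (7 * n) := by
  have h1 := H_le_log_card hd.law.nonneg hd.law.sum_one (fun ω => m (d.L ω))
    (F := Finset.Icc (-(4 * n : ℤ)) (2 * n)) (fun ω _ => Finset.mem_Icc.2 (hm _))
  refine h1.trans ?_
  have hc : (Finset.Icc (-(4 * n : ℤ)) (2 * n)).card = 6 * n + 1 := by
    rw [Int.card_Icc]; omega
  rw [hc]
  apply Real.log_le_log
  · positivity
  · have : (1 : ℝ) ≤ n := by exact_mod_cast hn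
    push_cast
    linarith only [this]

/-- Large numbers. -/
theorem exists_large (κ₂ δ M : ℝ) (hκ : 0 < κ₂) (hδ : 0 < δ) : ∃ X₀ : ℕ, ∀ X : ℕ, X₀ ≤ X →
    M ≤ κ₂ * X ∧ Real.log X ≤ δ * X := by
  obtain ⟨a, ha⟩ := exists_nat_ge (M / κ₂)
  obtain ⟨b, hb⟩ := exists_nat_ge (4 / δ ^ 2)
  refine ⟨max (max a b) 1, fun X hX => ?_⟩
  have h1 : (a : ℝ) ≤ X := by
    exact_mod_cast (le_max_left _ _).trans ((le_max_left _ _).trans hX)
  have h2 : (b : ℝ) ≤ X := by
    exact_mod_cast (le_max_right _ _).trans ((le_max_left _ _).trans hX)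
  have h3 : (1 : ℝ) ≤ X := by exact_mod_cast (le_max_right _ _).trans hX
  constructor
  · have := ha.trans h1
    rw [div_le_iff₀ hκ] at this
    linarith only [this]
  · have h4 : 4 / δ ^ 2 ≤ X := hb.trans h2
    rw [div_le_iff₀ (by positivity)] at h4
    have h5 : (0 : ℝ) < Real.sqrt X := Real.sqrt_pos.2 (by linarith only [h3])
    have h6 : Real.sqrt X * Real.sqrt X = X := Real.mul_self_sqrt (by linarith only [h3])
    have h7 : Real.log X = 2 * Real.log (Real.sqrt X) := by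
      rw [Real.log_sqrt (by linarith only [h3])]; ring
    have h8 := Real.log_le_sub_one_of_pos h5
    have h9 : 2 ≤ δ * Real.sqrt X := by
      have : (2 : ℝ) ^ 2 ≤ (δ * Real.sqrt X) ^ 2 := by
        rw [mul_pow, sq (Real.sqrt X), h6]; linarith only [h4]
      exact le_of_sq_le_sq this (by positivity)
    have h10 : 2 * Real.sqrt X ≤ δ * X := by
      calc 2 * Real.sqrt X ≤ (δ * Real.sqrt X) * Real.sqrt X :=
            mul_le_mul_of_nonneg_right h9 h5.le
        _ = δ * X := by rw [mul_assoc, h6]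
    linarith only [h7, h8, h10]

/-- **GEO.** The geometric part from its rows. -/
theorem geo_of (hT : TIMStmt) (hQ : QNTStmt) (hA : RWAStmt) (hB : RWBStmt) (hSA : SPRAStmt)
    (hN : NLCStmt) (hM : NMXStmt) (hAL : ALSStmt) (hL : LAMStmt) (hSB : SPRBStmt)
    (hF : FINStmt) : GEOStmt := by
  intro A ca u hca hu hu1
  obtain ⟨ε8B, κ2B, h8B, hκ2B, hSB⟩ := hSB u ca hu hu1 hca
  obtain ⟨ε8F, h8F, hF⟩ := hF u ca hu hu1 hca
  obtain ⟨ε9L, h9L, hL⟩ := hL u ε8F hu h8F
  obtain ⟨ε8A, h8A, hAL⟩ := hAL u (min ε9L ε8F) hu hu1 (lt_min h9L h8F)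
  -- the common small number
  set εs : ℝ := min (min ε8A ε8B) (min ε8F ε9L) / 4 with hεs
  have hs0 : 0 < εs := by
    have := lt_min (lt_min h8A h8B) (lt_min h8F h9L)
    rw [hεs]; linarith only [this]
  have hsA : 4 * εs ≤ ε8A := by
    rw [hεs]; linarith only [min_le_left (min ε8A ε8B) (min ε8F ε9L), min_le_left ε8A ε8B]
  have hsB : 4 * εs ≤ ε8B := by
    rw [hεs]; linarith only [min_le_left (min ε8A ε8B) (min ε8F ε9L), min_le_right ε8A ε8B]
  have hsF : 4 * εs ≤ ε8F := by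
    rw [hεs]; linarith only [min_le_right (min ε8A ε8B) (min ε8F ε9L), min_le_left ε8F ε9L]
  have hsL : 4 * εs ≤ ε9L := by
    rw [hεs]; linarith only [min_le_right (min ε8A ε8B) (min ε8F ε9L), min_le_right ε8F ε9L]
  set ε₄ : ℝ := u * εs / 16 with hε4
  have h40 : 0 < ε₄ := by rw [hε4]; positivity
  obtain ⟨a, κ2A, ε8S, e0S, ha, hκ2A, h8S, he0S, hSA⟩ := hSA u ε₄ hu hu1 h40
  set κ₂ : ℝ := min (min κ2A κ2B) (1 / 64) with hκ2
  have hκ20 : 0 < κ₂ := lt_min (lt_min hκ2A hκ2B) (by norm_num)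
  have hκA : κ₂ ≤ κ2A := (min_le_left _ _).trans (min_le_left _ _)
  have hκB : κ₂ ≤ κ2B := (min_le_left _ _).trans (min_le_right _ _)
  have hκ64 : κ₂ ≤ 1 / 64 := min_le_right _ _
  set εT : ℝ := min εs (u / 32 * ε8S) with hεT
  have hT0 : 0 < εT := lt_min hs0 (by positivity)
  obtain ⟨k', hT⟩ := hT εT hT0
  obtain ⟨ιT, XT, hιT, hT⟩ := hT κ₂ hκ20
  exact by
   obtain ⟨b, k10B, n0B, e0B, he0B, hSB⟩ := hSB A a k'
   obtain ⟨k5, k10F, n0F, e0F, hk5, he0F, hF⟩ := hF A a b k'
   obtain ⟨k10A, n0A, e0A, he0A, hAL⟩ := hAL A a k' k5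
   obtain ⟨k10S, n0S, hSA⟩ := hSA A k'
   set k₁ : ℕ := k10B + k10F + k10A + k10S + a + 4 with hk1
   set e : ℝ := min (min (min e0S e0B) (min e0F e0A)) (u * εs / 16) with hedef
   have he0 : 0 < e := lt_min (lt_min (lt_min he0S he0B) (lt_min he0F he0A)) (by positivity)
   have heS : e ≤ e0S :=
     (min_le_left _ _).trans ((min_le_left _ _).trans (min_le_left _ _))
   have heB : e ≤ e0B :=
     (min_le_left _ _).trans ((min_le_left _ _).trans (min_le_right _ _))
   have heF : e ≤ e0F :=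
     (min_le_left _ _).trans ((min_le_right _ _).trans (min_le_left _ _))
   have heA : e ≤ e0A :=
     (min_le_left _ _).trans ((min_le_right _ _).trans (min_le_right _ _))
   have heu : e ≤ u * εs / 16 := min_le_right _ _
   set π₁ : ℝ := min ε8S (εs / 4) with hπ1
   have hπ0 : 0 < π₁ := lt_min h8S (by positivity)
   refine ⟨a + 12, k₁, e, κ₂ / 200, π₁, κ₂, εs, he0, by positivity, by linarith only [hκ20, hκ64], hπ0, hκ20, hs0, ?_⟩
   intro δ hδ
   obtain ⟨X₀, hX₀⟩ := exists_large κ₂ δ (n0B + n0F + n0A + n0S + a + 1000) hκ20 hδ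
   set ι : ℝ := min (min (δ / 3) ιT) (min εs ε8S) with hι
   have hι0 : 0 < ι := lt_min (lt_min (by positivity) hιT) (lt_min hs0 h8S)
   have hι1 : ι ≤ δ / 3 := (min_le_left _ _).trans (min_le_left _ _)
   have hι2 : ι ≤ ιT := (min_le_left _ _).trans (min_le_right _ _)
   have hι3 : ι ≤ εs := (min_le_right _ _).trans (min_le_left _ _)
   have hι4 : ι ≤ ε8S := (min_le_right _ _).trans (min_le_right _ _)
   refine ⟨ι, max X₀ XT, hι0, ?_⟩
   intro d hd hX h1 h2 h3 h4 h6 J hJ1 hJ2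
   obtain ⟨hXa, hXb⟩ := hX₀ d.X ((le_max_left _ _).trans hX)
   exact by
    set n : ℕ := ⌊κ₂ * d.X⌋₊ with hn
    set h : ℕ := ⌊κ₂ / 200 * d.X⌋₊ with hh
    have hX0 : (0 : ℝ) ≤ d.X := Nat.cast_nonneg _
    have hnle : (n : ℝ) ≤ κ₂ * d.X := Nat.floor_le (by positivity)
    have hngt : κ₂ * d.X < n + 1 := Nat.lt_floor_add_one _
    have hhle : (h : ℝ) ≤ κ₂ / 200 * d.X := Nat.floor_le (by positivity)
    have hhgt : κ₂ / 200 * d.X < h + 1 := Nat.lt_floor_add_one _
    have hn1 : (n0B + n0F + n0A + n0S + a + 999 : ℝ) ≤ n := by linarith only [hXa, hngt]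
    have hnB : n0B ≤ n := by
      have : (n0B : ℝ) ≤ n := by
        have h1 := Nat.cast_nonneg (α := ℝ) n0F
        have h2 := Nat.cast_nonneg (α := ℝ) n0A
        have h3 := Nat.cast_nonneg (α := ℝ) n0S
        have h4 := Nat.cast_nonneg (α := ℝ) a
        linarith only [hκ20, hκ64, hXa, hngt]
      exact_mod_cast this
    have hnall : n0B + n0F + n0A + n0S + a + 999 ≤ n := by exact_mod_cast hn1
    have hnX : 64 * n ≤ d.X := by
      have : (64 * n : ℝ) ≤ d.X := by
        have := mul_le_mul_of_nonneg_right hκ64 hX0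
        linarith only [hnle, this]
      exact_mod_cast this
    have hh1 : 1 ≤ h := by
      have : (0 : ℝ) < h := by
        have : (5 : ℝ) ≤ κ₂ / 200 * d.X := by
          have h1 := Nat.cast_nonneg (α := ℝ) n0F
          have h2 := Nat.cast_nonneg (α := ℝ) n0A
          have h3 := Nat.cast_nonneg (α := ℝ) n0S
          have h4 := Nat.cast_nonneg (α := ℝ) a
          have h5 := Nat.cast_nonneg (α := ℝ) n0B
          linarith only [hXa]
        linarith only [hκ20, hκ64, hXa, hhgt]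
      exact_mod_cast this
    exact by
     have hhn : 64 * h ≤ n := by
       have : (64 * h : ℝ) < n + 1 := by linarith only [hκ20, hκ64, hXa, hngt, hhle]
       have : 64 * h < n + 1 := by exact_mod_cast this
       omega
     -- times
     obtain ⟨hTA, hTB⟩ := hT d A hd ((le_max_right _ _).trans hX) (h1.mono hι2)
     have hTs : εT ≤ εs := min_le_left _ _
     have hTS : εT ≤ u / 32 * ε8S := min_le_right _ _
     have h4n : ∀ i < n, Pr (d.Qp i) {w | |d.ta w| < (2 : ℝ) ^ (-(4 * n : ℤ))} ≤ εT := by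
       intro i hi
       have := hTA i (4 * n) (by omega) (by omega)
       exact_mod_cast this
     -- the label
     obtain ⟨m, hm, hm1, hm2⟩ := hQ d A n (u / 32) εT hd (by omega) (by positivity) h4n
     have hS : Siz d n h m := ⟨hh1, hhn, hnX, fun l => (hm l).1, fun l => (hm l).2⟩
     have hHm : H d.P (fun ω => m (d.L ω)) ≤ δ * d.X := by
       refine (H_label hd (by omega) m hm).trans (le_trans ?_ hXb)
       apply Real.log_le_log
       · have : (0 : ℝ) < n := by exact_mod_cast (by omega : 0 < n)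
         positivity
       · exact_mod_cast (by omega : 7 * n ≤ d.X)
     have hRA := hA d A J m n (a + 12) k₁ e δ ι hd h1 (by linarith only [hι0, hι1]) hHm hJ2
     obtain ⟨hRB, hRB'⟩ := hB d A J m n (a + 12) k₁ e δ ι hd h1 (by linarith only [hι1]) hHm hJ2
     -- stage A
     have hSP : SPR d m n a ε₄ := by
       refine hSA d J m n h (a + 12) k₁ e hd hS (by omega) (hnle.trans ?_) (by omega) (by omega)
         heS hRA (hJ1.mono (min_le_left _ _)) ?_ (hTB.mono ?_) (h3.mono hι4)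
       · exact mul_le_mul_of_nonneg_right hκA hX0
       · refine hm1.trans ?_
         rw [div_le_iff₀ (by positivity)]
         linarith only [hTS]
       · refine hTS.trans ?_
         have : u / 32 ≤ 1 := by linarith only [hu1, hκ20, hκ64]
         nlinarith only [h8S, hu1]
     exact by
      have hNL : NLC d m n a εs := by
        refine (hN d A J m n h (a + 12) k₁ a e u π₁ ε₄ hd hS hu (by omega) (by omega) hRA hJ1
          hSP).mono ?_
        have h5 : π₁ ≤ εs / 4 := min_le_right _ _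
        have h6 : 4 / u * (e + ε₄) ≤ εs / 2 := by
          rw [div_mul_eq_mul_div, div_le_iff₀ hu]
          rw [hε4]
          linarith only [heu]
        linarith only [hπ0, h5, h6]
      have hMX : Pr d.P {ω | m (d.L ω) = 2 * n} ≤ εs + εs + εs := by
        refine hM d A n a m κ₂ εs εs εs hd (by omega) ?_ h6 hNL ?_
        · have h5 : (a : ℝ) + 999 ≤ n := by
            exact_mod_cast (by omega : a + 999 ≤ n)
          linarith only [hκ20, hκ64, hXa, hngt]
        · exact (h4n 0 (by omega)).trans hTs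
      have hε4A : ε₄ ≤ ε8A := by
        rw [hε4]
        have : u * εs ≤ 1 * εs := mul_le_mul_of_nonneg_right hu1 hs0.le
        linarith only [h8A, hsA, this]
      obtain ⟨Λ, hΛ⟩ := hAL d J m n h (a + 12) k₁ e hd hS (by omega) (by omega) (by omega) heA hRA
        (hJ1.mono (by linarith only [hs0, hsA, min_le_right ε8S (εs / 4)])) (hSP.mono hε4A) (hNL.mono (by linarith only [hs0, hsA]))
        (hTA.mono (by linarith only [hs0, hsA, hTs])) (hTB.mono (by linarith only [hs0, hsA, hTs]))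
      have h0 : Pr (d.Qp 0) {w | d.ta w = 0} ≤ ε9L := by
        refine le_trans ?_ ((h4n 0 (by omega)).trans (hTs.trans (by linarith only [hs0, hsL] : εs ≤ ε9L)))
        refine Pr_mono ?_ ?_
        · intro w
          unfold Dat.Qp dbl
          exact glue_nonneg hd.law.nonneg hd.law.nonneg w
        · intro w _ hw
          have hw : d.ta w = 0 := hw
          show |d.ta w| < _
          rw [hw, abs_zero]
          positivity
      exact by
       have hΛ2 := hL d A n k5 m Λ hd (by omega) hk5 (hΛ.mono (min_le_left _ _))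
         (hMX.trans (by linarith only [hs0, hsL])) (fun l => (hm l).2) h0 hm2
       -- stage B
       have hAB := hSB d J m n h (a + 12) k₁ e hd hS (by omega)
         (hnle.trans (mul_le_mul_of_nonneg_right hκB hX0)) (by omega) (by omega) heB hRB
         (hJ1.mono (by linarith only [hs0, hsB, min_le_right ε8S (εs / 4)])) (hNL.mono (by linarith only [hs0, hsB]))
         (hTA.mono (by linarith only [hs0, hsB, hTs])) (hTB.mono (by linarith only [hs0, hsB, hTs])) (h1.mono (by linarith only [hs0, hsB, hι3]))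
         (h3.mono (by linarith only [hs0, hsB, hι3])) h4
       exact hF d J m n h (a + 12) k₁ e Λ hd hS (by omega) (by omega) (by omega) heF hRB hRB'
         (hJ1.mono (by linarith only [hs0, hsF, min_le_right ε8S (εs / 4)])) (hNL.mono (by linarith only [hs0, hsF]))
         (hTA.mono (by linarith only [hs0, hsF, hTs])) (hTB.mono (by linarith only [hs0, hsF, hTs])) (hΛ.mono (min_le_right _ _)) hΛ2 hAB

end Pool.OC
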